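import Pool.Agent.helper182_gap.Prob

set_option autoImplicit false
set_option linter.unusedSectionVars false
set_option linter.unusedSimpArgs false
set_option linter.unusedVariables false

open Finset Classical

namespace Pool.Agent.helper182_gap

/-- a group valued function on ordered pairs which is trivial on the diagonal and antisymmetric -/
structure IsConn {V G : Type*} [Group G] (A : V → V → G) : Prop where
  diag : ∀ u, A u u = 1
  inv : ∀ u v, A u v * A v u = 1

/-- trivial holonomy around the triples of `F` -/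
def FlatOn {V G : Type*} [DecidableEq V] [Group G] (A : V → V → G) (F : Finset (Finset V)) : Prop :=
  ∀ a b c, ({a, b, c} : Finset V) ∈ F → A a b * A b c * A c a = 1

def gauge {V G : Type*} [Group G] (h : V → G) (A : V → V → G) : V → V → G :=
  fun u v => (h u)⁻¹ * A u v * h v

section
variable {V G : Type*} [Fintype V] [DecidableEq V] [Group G]

lemma IsConn.symm {A : V → V → G} (hA : IsConn A) (u v : V) : A v u = (A u v)⁻¹ := by
  rw [eq_inv_iff_mul_eq_one]; exact hA.inv v u

lemma IsConn.gauge {A : V → V → G} (hA : IsConn A) (h : V → G) : IsConn (gauge h A) := by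
  constructor
  · intro u; simp [helper182_gap.gauge, hA.diag]
  · intro u v
    simp only [helper182_gap.gauge]
    have := hA.inv u v
    calc (h u)⁻¹ * A u v * h v * ((h v)⁻¹ * A v u * h u)
        = (h u)⁻¹ * (A u v * A v u) * h u := by group
      _ = 1 := by rw [this]; group

lemma FlatOn.gauge {A : V → V → G} {F : Finset (Finset V)} (hF : FlatOn A F) (h : V → G) :
    FlatOn (gauge h A) F := by
  intro a b c habc
  have := hF a b c habc
  simp only [helper182_gap.gauge]
  calc (h a)⁻¹ * A a b * h b * ((h b)⁻¹ * A b c * h c) * ((h c)⁻¹ * A c a * h a)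
      = (h a)⁻¹ * (A a b * A b c * A c a) * h a := by group
    _ = 1 := by rw [this]; group

/-- number of ordered pairs on which two functions of the entries differ -/
lemma cross_card {α β : Type*} [Fintype α] (f : α → β) (t : ℝ)
    (h : ∀ a, ((univ.filter (fun b => f b = f a)).card : ℝ) ≤ t) :
    (Fintype.card α : ℝ) ^ 2 - Fintype.card α * t
      ≤ (univ.filter (fun q : α × α => f q.1 ≠ f q.2)).card := by
  have h1 : (univ.filter (fun q : α × α => f q.1 ≠ f q.2)).card
      + (univ.filter (fun q : α × α => f q.1 = f q.2)).card = Fintype.card α ^ 2 := by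
    rw [add_comm]
    have := Finset.card_filter_add_card_filter_not (s := (univ : Finset (α × α)))
      (fun q : α × α => f q.1 = f q.2)
    rw [this]
    simp [sq]
  have h2 : ((univ.filter (fun q : α × α => f q.1 = f q.2)).card : ℝ) ≤ Fintype.card α * t := by
    have : (univ.filter (fun q : α × α => f q.1 = f q.2)).card
        = ∑ a : α, (univ.filter (fun b => f b = f a)).card := by
      rw [← Finset.univ_product_univ, Finset.card_filter, Finset.sum_product]
      apply Finset.sum_congr rfl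
      intro a _
      rw [Finset.card_filter]
      apply Finset.sum_congr rfl
      intro b _
      by_cases hab : f a = f b
      · simp [hab]
      · have : ¬ f b = f a := fun h => hab h.symm
        simp [hab, this]
    rw [this]
    push_cast
    calc ∑ a : α, ((univ.filter (fun b => f b = f a)).card : ℝ) ≤ ∑ _a : α, t :=
          Finset.sum_le_sum (fun a _ => h a)
      _ = Fintype.card α * t := by simp
  have h1' : ((univ.filter (fun q : α × α => f q.1 ≠ f q.2)).card : ℝ)
      + (univ.filter (fun q : α × α => f q.1 = f q.2)).card = (Fintype.card α : ℝ) ^ 2 := by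
    exact_mod_cast h1
  linarith

/-! ### The first set of patterns -/

/-- pairs of edges of `E` with a common vertex which are not in a triangle of `E` -/
noncomputable def O1 (E : Finset (V × V)) : Finset (V × V × V) :=
  univ.filter (fun t => Dis t ∧ (t.1, t.2.1) ∈ E ∧ (t.2.1, t.2.2) ∈ E ∧ (t.1, t.2.2) ∉ E)

/-- the edges whose triangle with `x` has trivial holonomy -/
noncomputable def Ex (A : V → V → G) (x : V) : Finset (V × V) :=
  univ.filter (fun q => q.1 ≠ q.2 ∧ q.1 ≠ x ∧ q.2 ≠ x ∧ A x q.1 * A q.1 q.2 * A q.2 x = 1)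

def Bad1 (d0 : ℝ) (F : Finset (Finset V)) : Prop :=
  ∃ E : Finset (V × V), E.Nonempty ∧ d0 / 64 * E.card ≤ (O1 E).card ∧ ∀ t ∈ O1 E, tri t ∉ F

lemma Ex_avoid {A : V → V → G} (hA : IsConn A) {F : Finset (Finset V)} (hF : FlatOn A F)
    (x : V) : ∀ t ∈ O1 (Ex A x), tri t ∉ F := by
  rintro ⟨y, z, w⟩ ht hT
  simp only [O1, Ex, Dis, mem_filter, mem_univ, true_and, not_and] at ht
  obtain ⟨⟨hyz, hyw, hzw⟩, ⟨_, hyx, hzx, e1⟩, ⟨_, _, hwx, e2⟩, h3⟩ := ht
  apply h3 hyw hyx hwx
  have e3 := hF y z w hT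
  have hxx := hA.diag
  have i1 := hA.inv x z
  have i2 := hA.inv z x
  have i3 := hA.inv y w
  -- A y w = A y z * A z w
  have e4 : A y w = A y z * A z w := by
    have : A w y = (A y w)⁻¹ := hA.symm y w
    rw [this] at e3
    have := mul_inv_eq_one.mp e3
    exact this.symm
  rw [e4]
  calc A x y * (A y z * A z w) * A w x
      = (A x y * A y z * A z x) * (A z x)⁻¹ * A z w * A w x := by group
    _ = A x z * A z w * A w x := by
        rw [e1, hA.symm x z]; group
    _ = 1 := e2

lemma card_eq_sum_nbr (E : Finset (V × V)) :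
    E.card = ∑ z : V, (univ.filter (fun y => (z, y) ∈ E)).card := by
  have : E = (univ : Finset (V × V)).filter (fun q => q ∈ E) := by
    ext q; simp
  conv_lhs => rw [this]
  rw [← Finset.univ_product_univ, Finset.card_filter, Finset.sum_product]
  apply Finset.sum_congr rfl
  intro a _
  rw [Finset.card_filter]

/-- neighbours -/
noncomputable def nbr (E : Finset (V × V)) (z : V) : Finset V := univ.filter (fun y => (z, y) ∈ E)

/-- pairs of neighbours of `z` which are not adjacent -/
noncomputable def opn (E : Finset (V × V)) (z : V) : Finset (V × V) :=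
  univ.filter (fun q => (z, q.1) ∈ E ∧ (z, q.2) ∈ E ∧ q.1 ≠ q.2 ∧ q ∉ E)

lemma card_O1_ge (E : Finset (V × V)) (hs : ∀ u v, (u, v) ∈ E → (v, u) ∈ E)
    (hd : ∀ u, (u, u) ∉ E) :
    ∑ z : V, (opn E z).card ≤ (O1 E).card := by
  rw [← Finset.card_sigma]
  apply Finset.card_le_card_of_injOn
    (fun s : (Σ _ : V, V × V) => (s.2.1, s.1, s.2.2))
  · rintro ⟨z, y, w⟩ h
    rw [mem_coe, mem_sigma] at h
    simp only [opn, mem_filter, mem_univ, true_and] at h
    obtain ⟨h1, h2, h3, h4⟩ := h
    rw [mem_coe, O1, mem_filter]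
    refine ⟨mem_univ _, ⟨?_, h3, ?_⟩, hs _ _ h1, h2, h4⟩
    · intro h; dsimp at h; subst h; exact hd _ h1
    · intro h; dsimp at h; subst h; exact hd _ h2
  · rintro ⟨z, y, w⟩ _ ⟨z', y', w'⟩ _ h
    simp only [Prod.mk.injEq] at h
    obtain ⟨rfl, rfl, rfl⟩ := h
    rfl

/-- a vertex with many neighbours, nearly all pairs of which are adjacent -/
lemma exists_near_clique (E : Finset (V × V)) (hs : ∀ u v, (u, v) ∈ E → (v, u) ∈ E)
    (hd : ∀ u, (u, u) ∉ E) (d0 : ℝ) (hd0 : 0 < d0)
    (hO : ((O1 E).card : ℝ) < d0 / 64 * E.card)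
    (hE : 2 * (Fintype.card V : ℝ) * d0 ≤ E.card) :
    ∃ z, d0 ≤ ((nbr E z).card : ℝ) ∧ ((opn E z).card : ℝ) ≤ ((nbr E z).card : ℝ) ^ 2 / 32 := by
  by_contra hcon
  push Not at hcon
  have key : ∀ z, d0 / 32 * ((nbr E z).card : ℝ) ≤ (opn E z).card + d0 ^ 2 / 32 := by
    intro z
    by_cases hz : d0 ≤ ((nbr E z).card : ℝ)
    · have h1 := hcon z hz
      have h2 : d0 * ((nbr E z).card : ℝ) ≤ ((nbr E z).card : ℝ) ^ 2 := by
        rw [sq]; exact mul_le_mul_of_nonneg_right hz (Nat.cast_nonneg _)
      nlinarith [sq_nonneg d0]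
    · push Not at hz
      have h3 : (0 : ℝ) ≤ (opn E z).card := Nat.cast_nonneg _
      nlinarith
  have hsum : ∑ z : V, d0 / 32 * ((nbr E z).card : ℝ)
      ≤ ∑ z : V, (((opn E z).card : ℝ) + d0 ^ 2 / 32) := Finset.sum_le_sum (fun z _ => key z)
  rw [← Finset.mul_sum, Finset.sum_add_distrib] at hsum
  have hE' : (E.card : ℝ) = ∑ z : V, ((nbr E z).card : ℝ) := by
    exact_mod_cast card_eq_sum_nbr E
  have hO' : ∑ z : V, ((opn E z).card : ℝ) ≤ (O1 E).card := by
    exact_mod_cast card_O1_ge E hs hd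
  rw [← hE'] at hsum
  simp only [sum_const, card_univ, nsmul_eq_mul] at hsum
  nlinarith

lemma Ex_symm {A : V → V → G} (hA : IsConn A) (x u v : V) (h : (u, v) ∈ Ex A x) :
    (v, u) ∈ Ex A x := by
  simp only [Ex, mem_filter, mem_univ, true_and] at h ⊢
  obtain ⟨h1, h2, h3, h4⟩ := h
  refine ⟨h1.symm, h3, h2, ?_⟩
  have : A x v * A v u * A u x = (A x u * A u v * A v x)⁻¹ := by
    rw [hA.symm v x, hA.symm u v, hA.symm x u]; group
  rw [this, h4, inv_one]

/-- Step 1: a large set on which the connection, in a suitable gauge, is nearly trivial -/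
lemma step1 {A : V → V → G} (hA : IsConn A) {F : Finset (Finset V)} (hF : FlatOn A F)
    (d0 : ℝ) (hd0 : 0 < d0) (hb : ¬ Bad1 d0 F) (x : V)
    (hx : 2 * (Fintype.card V : ℝ) * d0 ≤ (Ex A x).card) (hn : 0 < Fintype.card V) :
    ∃ D : Finset V, d0 ≤ D.card ∧
      ((univ.filter (fun q : D × D => gauge (fun u => A u x) A q.1 q.2 ≠ 1)).card : ℝ)
        ≤ (D.card : ℝ) ^ 2 / 32 := by
  have hne : (Ex A x).Nonempty := by
    rw [← Finset.card_pos]
    have h1 : (0 : ℝ) < 2 * (Fintype.card V : ℝ) * d0 := by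
      have : (0 : ℝ) < Fintype.card V := by exact_mod_cast hn
      positivity
    have : (0 : ℝ) < (Ex A x).card := lt_of_lt_of_le h1 hx
    exact_mod_cast this
  have hO : ((O1 (Ex A x)).card : ℝ) < d0 / 64 * (Ex A x).card := by
    by_contra h
    push Not at h
    exact hb ⟨Ex A x, hne, h, Ex_avoid hA hF x⟩
  have hdiag : ∀ u, (u, u) ∉ Ex A x := by
    intro u hu
    simp [Ex] at hu
  obtain ⟨z, hz1, hz2⟩ := exists_near_clique (Ex A x) (Ex_symm hA x) hdiag d0 hd0 hO hx
  refine ⟨nbr (Ex A x) z, hz1, le_trans ?_ hz2⟩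
  have : (univ.filter (fun q : (nbr (Ex A x) z) × (nbr (Ex A x) z) =>
      gauge (fun u => A u x) A q.1 q.2 ≠ 1)).card ≤ (opn (Ex A x) z).card := by
    apply Finset.card_le_card_of_injOn (fun q => ((q.1 : V), (q.2 : V)))
    · rintro ⟨⟨y, hy⟩, ⟨w, hw⟩⟩ h
      rw [mem_coe, mem_filter] at h
      replace h := h.2
      simp only [nbr, mem_filter, mem_univ, true_and] at hy hw
      simp only [opn, mem_coe, mem_filter, mem_univ, true_and]
      refine ⟨hy, hw, ?_, ?_⟩
      · rintro rfl
        exact h ((hA.gauge _).diag _)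
      · intro hyw
        apply h
        simp only [Ex, mem_filter, mem_univ, true_and] at hyw
        simp only [gauge]
        rw [← hA.symm y x]
        exact hyw.2.2.2
    · rintro ⟨⟨y, hy⟩, ⟨w, hw⟩⟩ _ ⟨⟨y', hy'⟩, ⟨w', hw'⟩⟩ _ h
      simp only [Prod.mk.injEq] at h
      obtain ⟨h1, h2⟩ := h
      subst h1; subst h2; rfl
  exact_mod_cast this

end

end Pool.Agent.helper182_gap
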