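import Pool.Agent.helper182_gap.Det

set_option autoImplicit false
set_option linter.unusedSectionVars false
set_option linter.unusedSimpArgs false
set_option linter.unusedVariables false

open Finset Classical

namespace Pool.Agent.helper182_gap

section
variable {V G : Type*} [Fintype V] [DecidableEq V] [Group G]

/-- the vertices where a function is defined -/
noncomputable def dom {β : Type*} (K : V → Option β) : Finset V :=
  univ.filter (fun w => (K w).isSome)

noncomputable def O2 (D : Finset V) (N : Finset (D × D)) (K : V → Option (D → D)) :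
    Finset (V × V × V) :=
  univ.filter (fun t => Dis t ∧ ∃ (hy : t.2.1 ∈ D) (hz : t.2.2 ∈ D) (κ : D → D),
    K t.1 = some κ ∧ κ ⟨t.2.1, hy⟩ ≠ κ ⟨t.2.2, hz⟩ ∧ ((⟨t.2.1, hy⟩, ⟨t.2.2, hz⟩) : D × D) ∉ N)

def Bad2 (d0 s0 : ℝ) (F : Finset (Finset V)) : Prop :=
  ∃ D : Finset V, d0 ≤ D.card ∧ ∃ (N : Finset (D × D)) (K : V → Option (D → D)),
    s0 ≤ (dom K).card ∧ ((dom K).card : ℝ) * (D.card : ℝ) ^ 2 / 16 ≤ (O2 D N K).card ∧
    ∀ t ∈ O2 D N K, tri t ∉ F

/-- vertices `w` for which `A w` is far from constant on `D` -/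
noncomputable def badv (A : V → V → G) (D : Finset V) : Finset V :=
  univ.filter (fun w => ∀ g : G,
    ((univ.filter (fun y : D => A w y = g)).card : ℝ) ≤ 7 / 8 * D.card)

lemma step2 {A : V → V → G} (hA : IsConn A) {F : Finset (Finset V)} (hF : FlatOn A F)
    (d0 s0 : ℝ) (hd0 : 64 ≤ d0) (D : Finset V) (hD : d0 ≤ D.card)
    (hN : ((univ.filter (fun q : D × D => A q.1 q.2 ≠ 1)).card : ℝ) ≤ (D.card : ℝ) ^ 2 / 32)
    (hb : ¬ Bad2 d0 s0 F) : ((badv A D).card : ℝ) < s0 := by
  by_contra hs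
  push Not at hs
  apply hb
  have hDpos : 0 < D.card := by
    have : (0 : ℝ) < D.card := by linarith
    exact_mod_cast this
  obtain ⟨y0, hy0⟩ := Finset.card_pos.mp hDpos
  have : Nonempty D := ⟨⟨y0, hy0⟩⟩
  set κ : V → D → D := fun w y => Function.invFun (fun y' : D => A w y') (A w y) with hκ
  have hκ1 : ∀ w y, A w (κ w y) = A w y := by
    intro w y
    exact Function.invFun_eq (f := fun y' : D => A w y') ⟨y, rfl⟩
  have hκ2 : ∀ w (y y' : D), κ w y ≠ κ w y' ↔ A w y ≠ A w y' := by
    intro w y y'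
    constructor
    · intro h h'
      apply h
      simp only [hκ, h']
    · intro h h'
      apply h
      rw [← hκ1 w y, ← hκ1 w y', h']
  set K : V → Option (D → D) := fun w => if w ∈ badv A D then some (κ w) else none with hK
  have hdom : dom K = badv A D := by
    ext w
    simp only [dom, hK, mem_filter, mem_univ, true_and]
    by_cases hw : w ∈ badv A D <;> simp [hw]
  set N : Finset (D × D) := univ.filter (fun q : D × D => A q.1 q.2 ≠ 1) with hNdef
  refine ⟨D, hD, N, K, ?_, ?_, ?_⟩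
  · rw [hdom]; exact hs
  · rw [hdom]
    -- counting
    have hsig : ((badv A D).sigma (fun w => univ.filter (fun q : D × D =>
        A w q.1 ≠ A w q.2 ∧ q ∉ N ∧ (q.1 : V) ≠ w ∧ (q.2 : V) ≠ w))).card ≤ (O2 D N K).card := by
      apply Finset.card_le_card_of_injOn
        (fun s : (Σ _ : V, D × D) => (s.1, (s.2.1 : V), (s.2.2 : V)))
      · rintro ⟨w, ⟨y, hy⟩, ⟨z, hz⟩⟩ h
        rw [mem_coe, mem_sigma, mem_filter] at h
        obtain ⟨hw, -, h1, h2, h3, h4⟩ := h
        rw [mem_coe, O2, mem_filter]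
        refine ⟨mem_univ _, ⟨fun h => h3 h.symm, fun h => h4 h.symm, ?_⟩, hy, hz, κ w, ?_, ?_, h2⟩
        · intro h; dsimp at h; subst h; exact h1 rfl
        · simp only [hK]; rw [if_pos hw]
        · rw [hκ2]; exact h1
      · rintro ⟨w, ⟨y, hy⟩, ⟨z, hz⟩⟩ _ ⟨w', ⟨y', hy'⟩, ⟨z', hz'⟩⟩ _ h
        simp only [Prod.mk.injEq] at h
        obtain ⟨h1, h2, h3⟩ := h
        subst h1; subst h2; subst h3; rfl
    rw [Finset.card_sigma] at hsig
    have hsig' : ∑ w ∈ badv A D, ((univ.filter (fun q : D × D =>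
        A w q.1 ≠ A w q.2 ∧ q ∉ N ∧ (q.1 : V) ≠ w ∧ (q.2 : V) ≠ w)).card : ℝ)
        ≤ (O2 D N K).card := by exact_mod_cast hsig
    refine le_trans ?_ hsig'
    have hcardD : Fintype.card D = D.card := Fintype.card_coe D
    have each : ∀ w ∈ badv A D, (D.card : ℝ) ^ 2 / 16 ≤ ((univ.filter (fun q : D × D =>
        A w q.1 ≠ A w q.2 ∧ q ∉ N ∧ (q.1 : V) ≠ w ∧ (q.2 : V) ≠ w)).card : ℝ) := by
      intro w hw
      simp only [badv, mem_filter, mem_univ, true_and] at hw
      have hc := cross_card (fun y : D => A w y) (7 / 8 * D.card) (fun a => hw (A w a))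
      rw [hcardD] at hc
      -- cross ⊆ wanted ∪ N ∪ (first = w) ∪ (second = w)
      have hsub : univ.filter (fun q : D × D => A w q.1 ≠ A w q.2) ⊆
          (univ.filter (fun q : D × D =>
            A w q.1 ≠ A w q.2 ∧ q ∉ N ∧ (q.1 : V) ≠ w ∧ (q.2 : V) ≠ w)) ∪ N ∪
          (univ.filter (fun q : D × D => (q.1 : V) = w)) ∪
          (univ.filter (fun q : D × D => (q.2 : V) = w)) := by
        intro q hq
        rw [mem_filter] at hq
        simp only [mem_union, mem_filter, mem_univ, true_and]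
        by_cases h1 : q ∈ N
        · simp [h1]
        · by_cases h2 : (q.1 : V) = w
          · simp [h2]
          · by_cases h3 : (q.2 : V) = w
            · simp [h3]
            · left; left; left
              exact ⟨hq.2, h1, h2, h3⟩
      have hf : (univ.filter (fun q : D × D => (q.1 : V) = w)).card ≤ D.card := by
        rw [← hcardD, ← Finset.card_univ]
        apply Finset.card_le_card_of_injOn (fun q => q.2) (fun _ _ => mem_coe.mpr (mem_univ _))
        rintro ⟨⟨a, ha⟩, b⟩ h1 ⟨⟨a', ha'⟩, b'⟩ h2 h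
        rw [mem_coe, mem_filter] at h1 h2
        have e1 := h1.2
        have e2 := h2.2
        dsimp at e1 e2 h
        subst e1; subst h; simp [e2]
      have hf' : (univ.filter (fun q : D × D => (q.2 : V) = w)).card ≤ D.card := by
        rw [← hcardD, ← Finset.card_univ]
        apply Finset.card_le_card_of_injOn (fun q => q.1) (fun _ _ => mem_coe.mpr (mem_univ _))
        rintro ⟨b, ⟨a, ha⟩⟩ h1 ⟨b', ⟨a', ha'⟩⟩ h2 h
        rw [mem_coe, mem_filter] at h1 h2
        have e1 := h1.2
        have e2 := h2.2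
        dsimp at e1 e2 h
        subst e1; subst h; simp [e2]
      have h1 := Finset.card_le_card hsub
      have h2 := Finset.card_union_le ((univ.filter (fun q : D × D =>
            A w q.1 ≠ A w q.2 ∧ q ∉ N ∧ (q.1 : V) ≠ w ∧ (q.2 : V) ≠ w)) ∪ N ∪
          (univ.filter (fun q : D × D => (q.1 : V) = w)))
          (univ.filter (fun q : D × D => (q.2 : V) = w))
      have h3 := Finset.card_union_le ((univ.filter (fun q : D × D =>
            A w q.1 ≠ A w q.2 ∧ q ∉ N ∧ (q.1 : V) ≠ w ∧ (q.2 : V) ≠ w)) ∪ N)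
          (univ.filter (fun q : D × D => (q.1 : V) = w))
      have h4 := Finset.card_union_le (univ.filter (fun q : D × D =>
            A w q.1 ≠ A w q.2 ∧ q ∉ N ∧ (q.1 : V) ≠ w ∧ (q.2 : V) ≠ w)) N
      have h5 : (univ.filter (fun q : D × D => A w q.1 ≠ A w q.2)).card
          ≤ (univ.filter (fun q : D × D =>
            A w q.1 ≠ A w q.2 ∧ q ∉ N ∧ (q.1 : V) ≠ w ∧ (q.2 : V) ≠ w)).card + N.card
            + D.card + D.card := by omega
      have h6 : ((univ.filter (fun q : D × D => A w q.1 ≠ A w q.2)).card : ℝ)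
          ≤ (univ.filter (fun q : D × D =>
            A w q.1 ≠ A w q.2 ∧ q ∉ N ∧ (q.1 : V) ≠ w ∧ (q.2 : V) ≠ w)).card + N.card
            + D.card + D.card := by exact_mod_cast h5
      have h7 : (64 : ℝ) ≤ D.card := by linarith
      have h8 : 64 * (D.card : ℝ) ≤ (D.card : ℝ) ^ 2 := by
        rw [sq]; exact mul_le_mul_of_nonneg_right h7 (Nat.cast_nonneg _)
      linarith
    calc ((badv A D).card : ℝ) * (D.card : ℝ) ^ 2 / 16
        = ∑ w ∈ badv A D, (D.card : ℝ) ^ 2 / 16 := by
          rw [Finset.sum_const, nsmul_eq_mul]; ring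
      _ ≤ _ := Finset.sum_le_sum each
  · rintro ⟨w, y, z⟩ ht hT
    simp only [O2, mem_filter, mem_univ, true_and] at ht
    obtain ⟨-, hy, hz, κ', h1, h2, h3⟩ := ht
    simp only [hK] at h1
    by_cases hw : w ∈ badv A D
    · rw [if_pos hw, Option.some.injEq] at h1
      subst h1
      rw [hκ2] at h2
      simp only [hNdef, mem_filter, mem_univ, true_and, not_not] at h3
      have h4 := hF w y z hT
      apply h2
      dsimp
      rw [h3, mul_one, hA.symm w z] at h4
      exact mul_inv_eq_one.mp h4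
    · rw [if_neg hw] at h1
      exact absurd h1 (by simp)

/-! ### Step 3 -/

noncomputable def O3 (D : Finset V) (Z : V → Finset D) (B : Finset (V × V)) :
    Finset (V × V × V) :=
  univ.filter (fun t => Dis t ∧ (t.1, t.2.1) ∈ B ∧ ∃ (hy : t.2.2 ∈ D),
    (⟨t.2.2, hy⟩ : D) ∈ Z t.1 ∧ (⟨t.2.2, hy⟩ : D) ∈ Z t.2.1)

def Bad3 (d0 k0 : ℝ) (F : Finset (Finset V)) : Prop :=
  ∃ D : Finset V, d0 ≤ D.card ∧ ∃ (Z : V → Finset D) (B : Finset (V × V)),
    k0 ≤ B.card ∧ (B.card : ℝ) * (D.card : ℝ) / 2 ≤ (O3 D Z B).card ∧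
    ∀ t ∈ O3 D Z B, tri t ∉ F

lemma step3 {A : V → V → G} (hA : IsConn A) {F : Finset (Finset V)} (hF : FlatOn A F)
    (d0 k0 : ℝ) (hd0 : 64 ≤ d0) (D : Finset V) (hD : d0 ≤ D.card)
    (hb : ¬ Bad3 d0 k0 F) : ∃ h : V → G,
      ((univ.filter (fun q : V × V => q.1 ∉ badv A D ∧ q.2 ∉ badv A D ∧
        gauge h A q.1 q.2 ≠ 1)).card : ℝ) < k0 := by
  have hex : ∀ w, ∃ g : G, w ∉ badv A D →
      7 / 8 * (D.card : ℝ) < (univ.filter (fun y : D => A w y = g)).card := by
    intro w
    by_cases hw : w ∈ badv A D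
    · exact ⟨1, fun h => absurd hw h⟩
    · simp only [badv, mem_filter, mem_univ, true_and] at hw
      push Not at hw
      obtain ⟨g, hg⟩ := hw
      exact ⟨g, fun _ => hg⟩
  choose h hh using hex
  refine ⟨h, ?_⟩
  by_contra hs
  push Not at hs
  apply hb
  set B : Finset (V × V) := univ.filter (fun q : V × V => q.1 ∉ badv A D ∧ q.2 ∉ badv A D ∧
        gauge h A q.1 q.2 ≠ 1) with hB
  set Z : V → Finset D := fun w => univ.filter (fun y : D => A w y = h w) with hZ
  refine ⟨D, hD, Z, B, hs, ?_, ?_⟩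
  · have hsig : (B.sigma (fun q => (Z q.1 ∩ Z q.2).filter
        (fun y : D => (y : V) ≠ q.1 ∧ (y : V) ≠ q.2))).card ≤ (O3 D Z B).card := by
      apply Finset.card_le_card_of_injOn
        (fun s : (Σ _ : V × V, D) => (s.1.1, s.1.2, (s.2 : V)))
      · rintro ⟨⟨w, w'⟩, ⟨y, hy⟩⟩ h'
        rw [mem_coe, mem_sigma] at h'
        obtain ⟨hw, h1⟩ := h'
        rw [mem_filter] at h1
        obtain ⟨h1, h3, h4⟩ := h1
        rw [mem_coe, O3, mem_filter]
        rw [mem_inter] at h1
        refine ⟨mem_univ _, ⟨?_, fun h => h3 h.symm, fun h => h4 h.symm⟩, hw, hy, h1.1, h1.2⟩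
        intro he
        dsimp at he
        subst he
        simp only [hB, mem_filter, mem_univ, true_and] at hw
        exact hw.2.2 ((hA.gauge h).diag _)
      · rintro ⟨⟨w, w'⟩, ⟨y, hy⟩⟩ _ ⟨⟨w1, w1'⟩, ⟨y', hy'⟩⟩ _ h'
        simp only [Prod.mk.injEq] at h'
        obtain ⟨h1, h2, h3⟩ := h'
        subst h1; subst h2; subst h3; rfl
    rw [Finset.card_sigma] at hsig
    have hsig' : ∑ q ∈ B, (((Z q.1 ∩ Z q.2).filter
        (fun y : D => (y : V) ≠ q.1 ∧ (y : V) ≠ q.2)).card : ℝ) ≤ (O3 D Z B).card := by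
      exact_mod_cast hsig
    refine le_trans ?_ hsig'
    have each : ∀ q ∈ B, (D.card : ℝ) / 2 ≤ ((Z q.1 ∩ Z q.2).filter
        (fun y : D => (y : V) ≠ q.1 ∧ (y : V) ≠ q.2)).card := by
      rintro ⟨w, w'⟩ hq
      simp only [hB, mem_filter, mem_univ, true_and] at hq
      obtain ⟨hw, hw', -⟩ := hq
      have e1 := hh w hw
      have e2 := hh w' hw'
      have hcardD : Fintype.card D = D.card := Fintype.card_coe D
      have e3 : (Z w ∪ Z w').card ≤ D.card := by
        rw [← hcardD]; exact Finset.card_le_univ _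
      have e4 := Finset.card_union_add_card_inter (Z w) (Z w')
      have e5 : (Z w ∩ Z w').card ≤ ((Z w ∩ Z w').filter
        (fun y : D => (y : V) ≠ w ∧ (y : V) ≠ w')).card + 2 := by
        have hsub : (Z w ∩ Z w') ⊆ ((Z w ∩ Z w').filter
          (fun y : D => (y : V) ≠ w ∧ (y : V) ≠ w')) ∪
            ((univ.filter (fun y : D => (y : V) = w)) ∪ (univ.filter (fun y : D => (y : V) = w'))) := by
          intro y hy
          simp only [mem_union, mem_filter, mem_univ, true_and]
          by_cases h1 : (y : V) = w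
          · simp [h1]
          · by_cases h2 : (y : V) = w'
            · simp [h2]
            · left; exact ⟨hy, h1, h2⟩
        have f1 : ∀ w : V, (univ.filter (fun y : D => (y : V) = w)).card ≤ 1 := by
          intro w
          rw [Finset.card_le_one]
          intro a ha b hb
          simp only [mem_filter, mem_univ, true_and] at ha hb
          exact Subtype.ext (ha.trans hb.symm)
        have g1 := Finset.card_le_card hsub
        have g2 := Finset.card_union_le ((Z w ∩ Z w').filter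
          (fun y : D => (y : V) ≠ w ∧ (y : V) ≠ w'))
            ((univ.filter (fun y : D => (y : V) = w)) ∪ (univ.filter (fun y : D => (y : V) = w')))
        have g3 := Finset.card_union_le (univ.filter (fun y : D => (y : V) = w))
          (univ.filter (fun y : D => (y : V) = w'))
        have g4 := f1 w
        have g5 := f1 w'
        omega
      have e4' : ((Z w ∪ Z w').card : ℝ) + (Z w ∩ Z w').card = (Z w).card + (Z w').card := by
        exact_mod_cast e4
      have e3' : ((Z w ∪ Z w').card : ℝ) ≤ D.card := by exact_mod_cast e3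
      have e5' : ((Z w ∩ Z w').card : ℝ) ≤ ((Z w ∩ Z w').filter
        (fun y : D => (y : V) ≠ w ∧ (y : V) ≠ w')).card + 2 := by exact_mod_cast e5
      have e6 : (64 : ℝ) ≤ D.card := by linarith
      simp only [hZ] at e3' e4' e5' ⊢
      linarith
    calc (B.card : ℝ) * (D.card : ℝ) / 2 = ∑ q ∈ B, (D.card : ℝ) / 2 := by
          rw [Finset.sum_const, nsmul_eq_mul]; ring
      _ ≤ _ := Finset.sum_le_sum each
  · rintro ⟨w, w', y⟩ ht hT
    simp only [O3, mem_filter, mem_univ, true_and] at ht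
    obtain ⟨-, hB', hy, h1, h2⟩ := ht
    simp only [hB, mem_filter, mem_univ, true_and] at hB'
    obtain ⟨-, -, h3⟩ := hB'
    simp only [hZ, mem_filter, mem_univ, true_and] at h1 h2
    apply h3
    have h4 := hF w w' y hT
    have h5 : A y w = (h w)⁻¹ := by rw [hA.symm w y, h1]
    rw [h2, h5] at h4
    simp only [gauge]
    calc (h w)⁻¹ * A w w' * h w' = (h w)⁻¹ * (A w w' * h w' * (h w)⁻¹) * h w := by group
      _ = 1 := by rw [h4]; group

end

end Pool.Agent.helper182_gap
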