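import Pool.Agent.helper182_gap.Det2

set_option autoImplicit false
set_option linter.unusedSectionVars false
set_option linter.unusedSimpArgs false
set_option linter.unusedVariables false

open Finset Classical

namespace Pool.Agent.helper182_gap

section
variable {V G : Type*} [Fintype V] [DecidableEq V] [Group G]

/-- the pairs declared to be non-trivial by a pattern -/
def badp (K : V → Option (V → V)) (Q : Finset (V × V)) (u v : V) : Prop :=
  (∃ κ, K u = some κ ∧ κ v ≠ κ u) ∨ (∃ κ, K v = some κ ∧ κ u ≠ κ v) ∨ (u, v) ∈ Q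

noncomputable def O4 (K : V → Option (V → V)) (Q : Finset (V × V)) : Finset (V × V × V) :=
  univ.filter (fun t => Dis t ∧
    (((t.1, t.2.1) ∈ Q ∧ ¬ badp K Q t.2.1 t.2.2 ∧ ¬ badp K Q t.1 t.2.2) ∨
     (∃ κ, K t.1 = some κ ∧ κ t.2.1 ≠ κ t.2.2 ∧ ¬ badp K Q t.2.1 t.2.2)))

def Bad4 (F : Finset (Finset V)) : Prop :=
  ∃ (K : V → Option (V → V)) (Q : Finset (V × V)), ((dom K).Nonempty ∨ Q.Nonempty) ∧
    (Q.card : ℝ) * (Fintype.card V) / 4 + ((dom K).card : ℝ) * (Fintype.card V : ℝ) ^ 2 / 64
      ≤ (O4 K Q).card ∧ ∀ t ∈ O4 K Q, tri t ∉ F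

/-- number of ordered pairs on which the connection is not trivial -/
noncomputable def nb (A : V → V → G) : ℕ := (univ.filter (fun q : V × V => A q.1 q.2 ≠ 1)).card

lemma gauge_gauge (A : V → V → G) (h h' : V → G) :
    gauge h' (gauge h A) = gauge (fun u => h u * h' u) A := by
  funext u v
  simp only [gauge, mul_inv_rev]
  group

lemma gauge_one (A : V → V → G) : gauge (fun _ => (1 : G)) A = A := by
  funext u v
  simp [gauge]

lemma exists_min_gauge (A : V → V → G) : ∃ h : V → G, ∀ h' : V → G,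
    nb (gauge h A) ≤ nb (gauge h' A) := by
  obtain ⟨h, -, hh⟩ := WellFounded.has_min (measure (fun h : V → G => nb (gauge h A))).wf
    Set.univ ⟨fun _ => 1, trivial⟩
  refine ⟨h, fun h' => ?_⟩
  have := hh h' trivial
  simp only [measure, invImage, InvImage, WellFoundedRelation.rel] at this
  omega

/-- bad pairs split according to whether they contain `v` -/
lemma nb_split {A : V → V → G} (hA : IsConn A) (v : V) :
    nb A = (univ.filter (fun q : V × V => q.1 ≠ v ∧ q.2 ≠ v ∧ A q.1 q.2 ≠ 1)).card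
      + 2 * (univ.filter (fun u : V => u ≠ v ∧ A v u ≠ 1)).card := by
  have e : univ.filter (fun q : V × V => A q.1 q.2 ≠ 1)
      = univ.filter (fun q : V × V => q.1 ≠ v ∧ q.2 ≠ v ∧ A q.1 q.2 ≠ 1)
        ∪ ((univ.filter (fun u : V => u ≠ v ∧ A v u ≠ 1)).image (fun u => (v, u))
        ∪ (univ.filter (fun u : V => u ≠ v ∧ A v u ≠ 1)).image (fun u => (u, v))) := by
    ext ⟨a, b⟩
    simp only [mem_filter, mem_univ, true_and, mem_union, mem_image, Prod.mk.injEq]
    constructor
    · intro h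
      by_cases h1 : a = v
      · right; left
        refine ⟨b, ⟨?_, ?_⟩, h1.symm, rfl⟩
        · rintro rfl; exact h (by rw [h1]; exact hA.diag _)
        · rw [← h1]; exact h
      · by_cases h2 : b = v
        · right; right
          refine ⟨a, ⟨h1, ?_⟩, rfl, h2.symm⟩
          intro h3
          apply h
          rw [h2, hA.symm v a, h3, inv_one]
        · left; exact ⟨h1, h2, h⟩
    · rintro (⟨_, _, h⟩ | ⟨u, ⟨hu, h⟩, rfl, rfl⟩ | ⟨u, ⟨hu, h⟩, rfl, rfl⟩)
      · exact h
      · exact h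
      · intro h3; apply h; rw [hA.symm u v, h3, inv_one]
  unfold nb
  rw [e, Finset.card_union_of_disjoint, Finset.card_union_of_disjoint]
  · rw [Finset.card_image_of_injective, Finset.card_image_of_injective]
    · ring
    · intro a b h; simpa using h
    · intro a b h; simpa using h
  · rw [Finset.disjoint_left]
    rintro ⟨a, b⟩ h1 h2
    simp only [mem_image, mem_filter, mem_univ, true_and, Prod.mk.injEq] at h1 h2
    obtain ⟨u, ⟨hu, _⟩, rfl, rfl⟩ := h1
    obtain ⟨u', ⟨hu', _⟩, h3, h4⟩ := h2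
    exact hu h4.symm
  · rw [Finset.disjoint_left]
    rintro ⟨a, b⟩ h1 h2
    simp only [mem_union, mem_image, mem_filter, mem_univ, true_and, Prod.mk.injEq] at h1 h2
    rcases h2 with ⟨u, _, h3, h4⟩ | ⟨u, _, h3, h4⟩
    · exact h1.1 h3.symm
    · exact h1.2.1 h4.symm

lemma min_gauge_class {A : V → V → G} (hA : IsConn A)
    (hmin : ∀ h' : V → G, nb A ≤ nb (gauge h' A)) (v : V) (g : G) :
    (univ.filter (fun u : V => u ≠ v ∧ A v u = g)).card
      ≤ (univ.filter (fun u : V => u ≠ v ∧ A v u = 1)).card := by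
  set h' : V → G := Function.update (fun _ => 1) v g with hh'
  have h1 := hmin h'
  rw [nb_split hA v, nb_split (hA.gauge h') v] at h1
  have hv : h' v = g := by simp [hh']
  have hu : ∀ u, u ≠ v → h' u = 1 := by intro u hu; simp [hh', Function.update_of_ne hu]
  have e1 : univ.filter (fun q : V × V => q.1 ≠ v ∧ q.2 ≠ v ∧ gauge h' A q.1 q.2 ≠ 1)
      = univ.filter (fun q : V × V => q.1 ≠ v ∧ q.2 ≠ v ∧ A q.1 q.2 ≠ 1) := by
    apply Finset.filter_congr
    rintro ⟨a, b⟩ _
    dsimp
    constructor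
    · rintro ⟨h2, h3, h4⟩
      refine ⟨h2, h3, ?_⟩
      simpa [gauge, hu a h2, hu b h3] using h4
    · rintro ⟨h2, h3, h4⟩
      refine ⟨h2, h3, ?_⟩
      simpa [gauge, hu a h2, hu b h3] using h4
  have e2 : univ.filter (fun u : V => u ≠ v ∧ gauge h' A v u ≠ 1)
      = univ.filter (fun u : V => u ≠ v ∧ A v u ≠ g) := by
    apply Finset.filter_congr
    intro a _
    constructor
    · rintro ⟨h2, h3⟩
      refine ⟨h2, ?_⟩
      intro h4; apply h3
      simp [gauge, hv, hu a h2, h4]
    · rintro ⟨h2, h3⟩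
      refine ⟨h2, ?_⟩
      intro h4; apply h3
      simp only [gauge, hv, hu a h2, mul_one] at h4
      exact (inv_mul_eq_one.mp h4).symm
  rw [e1, e2] at h1
  have s1 : ∀ g : G, (univ.filter (fun u : V => u ≠ v ∧ A v u = g)).card
      + (univ.filter (fun u : V => u ≠ v ∧ A v u ≠ g)).card
      = (univ.filter (fun u : V => u ≠ v)).card := by
    intro g
    rw [← Finset.filter_filter, ← Finset.filter_filter]
    exact Finset.card_filter_add_card_filter_not _
  have h2 := s1 g
  have h3 := s1 1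
  omega

lemma cross_at {A : V → V → G} (hA : IsConn A)
    (hmin : ∀ h' : V → G, nb A ≤ nb (gauge h' A)) (v : V) (hn : 2 ≤ Fintype.card V) :
    ((Fintype.card V : ℝ) - 1) * (univ.filter (fun u : V => A v u ≠ 1)).card
      ≤ (univ.filter (fun q : V × V => q.1 ≠ v ∧ q.2 ≠ v ∧ A v q.1 ≠ A v q.2)).card := by
  have hc : (Fintype.card {u : V // u ≠ v} : ℝ) = Fintype.card V - 1 := by
    have h1 : Fintype.card {u : V // u ≠ v} = Fintype.card V - 1 := by
      rw [Fintype.card_subtype_compl, Fintype.card_subtype_eq]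
    rw [h1, Nat.cast_sub (by omega)]
    simp
  have hb : (univ.filter (fun u : V => A v u ≠ 1)).card
      + (univ.filter (fun u : V => u ≠ v ∧ A v u = 1)).card = Fintype.card {u : V // u ≠ v} := by
    have e : univ.filter (fun u : V => A v u ≠ 1) = univ.filter (fun u : V => u ≠ v ∧ A v u ≠ 1) := by
      apply Finset.filter_congr
      intro u _
      constructor
      · intro h
        refine ⟨?_, h⟩
        rintro rfl; exact h (hA.diag _)
      · exact fun h => h.2
    rw [e, add_comm, ← Finset.filter_filter, ← Finset.filter_filter,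
      Finset.card_filter_add_card_filter_not, Fintype.card_subtype]
  have hcls : ∀ a : {u : V // u ≠ v},
      ((univ.filter (fun b : {u : V // u ≠ v} => A v b = A v a)).card : ℝ)
        ≤ Fintype.card {u : V // u ≠ v} - (univ.filter (fun u : V => A v u ≠ 1)).card := by
    intro a
    have h1 := min_gauge_class hA hmin v (A v a)
    have h2 : (univ.filter (fun b : {u : V // u ≠ v} => A v b = A v a)).card
        ≤ (univ.filter (fun u : V => u ≠ v ∧ A v u = A v a)).card := by
      apply Finset.card_le_card_of_injOn Subtype.val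
      · intro b hb
        rw [mem_coe, mem_filter] at hb ⊢
        exact ⟨mem_univ _, b.2, hb.2⟩
      · intro b _ b' _ h
        exact Subtype.ext h
    have h3 : (univ.filter (fun b : {u : V // u ≠ v} => A v b = A v a)).card
        + (univ.filter (fun u : V => A v u ≠ 1)).card ≤ Fintype.card {u : V // u ≠ v} := by omega
    have h4 : ((univ.filter (fun b : {u : V // u ≠ v} => A v b = A v a)).card : ℝ)
        + (univ.filter (fun u : V => A v u ≠ 1)).card ≤ Fintype.card {u : V // u ≠ v} := by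
      exact_mod_cast h3
    linarith
  have h5 := cross_card (fun b : {u : V // u ≠ v} => A v b) _ hcls
  have h6 : (univ.filter (fun q : {u : V // u ≠ v} × {u : V // u ≠ v} =>
      A v q.1 ≠ A v q.2)).card
      ≤ (univ.filter (fun q : V × V => q.1 ≠ v ∧ q.2 ≠ v ∧ A v q.1 ≠ A v q.2)).card := by
    apply Finset.card_le_card_of_injOn (fun q => ((q.1 : V), (q.2 : V)))
    · rintro ⟨a, b⟩ hq
      rw [mem_coe, mem_filter] at hq ⊢
      exact ⟨mem_univ _, a.2, b.2, hq.2⟩
    · rintro ⟨⟨a, ha⟩, ⟨b, hb⟩⟩ _ ⟨⟨a', ha'⟩, ⟨b', hb'⟩⟩ _ h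
      simp only [Prod.mk.injEq] at h
      obtain ⟨h1, h2⟩ := h
      subst h1; subst h2; rfl
  have h7 : ((univ.filter (fun q : {u : V // u ≠ v} × {u : V // u ≠ v} =>
      A v q.1 ≠ A v q.2)).card : ℝ)
      ≤ (univ.filter (fun q : V × V => q.1 ≠ v ∧ q.2 ≠ v ∧ A v q.1 ≠ A v q.2)).card := by
    exact_mod_cast h6
  rw [hc] at h5
  nlinarith

/-- Step 5: a nearly trivial flat connection is trivial -/
lemma step5 {A : V → V → G} (hA : IsConn A) {F : Finset (Finset V)} (hF : FlatOn A F)
    (hn : 8 ≤ Fintype.card V) (hsmall : (nb A : ℝ) ≤ (Fintype.card V : ℝ) ^ 2 / 32)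
    (hb : ¬ Bad4 F) : ∃ h : V → G, ∀ u v, gauge h A u v = 1 := by
  obtain ⟨h, hh⟩ := exists_min_gauge A
  refine ⟨h, ?_⟩
  set A1 := gauge h A with hA1
  have hc : IsConn A1 := hA.gauge h
  have hf : FlatOn A1 F := hF.gauge h
  have hmin : ∀ h' : V → G, nb A1 ≤ nb (gauge h' A1) := by
    intro h'
    rw [hA1, gauge_gauge]
    exact hh _
  have hsm : (nb A1 : ℝ) ≤ (Fintype.card V : ℝ) ^ 2 / 32 := by
    have h1 := hh (fun _ => 1)
    rw [gauge_one] at h1
    have h2 : (nb A1 : ℝ) ≤ nb A := by exact_mod_cast h1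
    linarith
  clear_value A1
  set n : ℝ := (Fintype.card V : ℝ) with hnn
  have hn8 : (8 : ℝ) ≤ n := by rw [hnn]; exact_mod_cast hn
  -- heavy vertices
  set H : Finset V := univ.filter (fun v => n / 8 ≤ ((univ.filter (fun u : V => A1 v u ≠ 1)).card : ℝ))
    with hH
  set κ : V → V → V := fun v y => @Function.invFun V G ⟨v⟩ (fun y' : V => A1 v y') (A1 v y) with hκ
  have hκ1 : ∀ w y, A1 w (κ w y) = A1 w y := by
    intro w y
    exact @Function.invFun_eq V G ⟨w⟩ (fun y' : V => A1 w y') (A1 w y) ⟨y, rfl⟩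
  have hκ2 : ∀ w (y y' : V), κ w y ≠ κ w y' ↔ A1 w y ≠ A1 w y' := by
    intro w y y'
    constructor
    · intro h h'
      apply h
      simp only [hκ, h']
    · intro h h'
      apply h
      rw [← hκ1 w y, ← hκ1 w y', h']
  set K : V → Option (V → V) := fun w => if w ∈ H then some (κ w) else none with hK
  have hK1 : ∀ w κ', K w = some κ' ↔ (w ∈ H ∧ κ' = κ w) := by
    intro w κ'
    simp only [hK]
    by_cases hw : w ∈ H
    · rw [if_pos hw, Option.some.injEq]
      constructor
      · intro h; exact ⟨hw, h.symm⟩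
      · intro h; exact h.2.symm
    · rw [if_neg hw]
      constructor
      · intro h; exact absurd h (by simp)
      · intro h; exact absurd h.1 hw
  have hdom : dom K = H := by
    ext w
    simp only [dom, hK, mem_filter, mem_univ, true_and]
    by_cases hw : w ∈ H <;> simp [hw]
  set Q : Finset (V × V) := univ.filter (fun q : V × V => q.1 ∉ H ∧ q.2 ∉ H ∧ A1 q.1 q.2 ≠ 1)
    with hQ
  have hbad : ∀ u v, badp K Q u v ↔ A1 u v ≠ 1 := by
    intro u v
    have hsy : A1 v u ≠ 1 ↔ A1 u v ≠ 1 := by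
      rw [hc.symm u v, not_iff_not, inv_eq_one]
    constructor
    · rintro (⟨κ', h1, h2⟩ | ⟨κ', h1, h2⟩ | h1)
      · rw [hK1] at h1
        rw [h1.2, hκ2, hc.diag] at h2
        exact h2
      · rw [hK1] at h1
        rw [h1.2, hκ2, hc.diag] at h2
        exact hsy.mp h2
      · simp only [hQ, mem_filter, mem_univ, true_and] at h1
        exact h1.2.2
    · intro h1
      by_cases hu : u ∈ H
      · left
        refine ⟨κ u, (hK1 _ _).mpr ⟨hu, rfl⟩, ?_⟩
        rw [hκ2, hc.diag]; exact h1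
      · by_cases hv : v ∈ H
        · right; left
          refine ⟨κ v, (hK1 _ _).mpr ⟨hv, rfl⟩, ?_⟩
          rw [hκ2, hc.diag]; exact hsy.mpr h1
        · right; right
          simp only [hQ, mem_filter, mem_univ, true_and]
          exact ⟨hu, hv, h1⟩
  by_contra hcon
  apply hb
  refine ⟨K, Q, ?_, ?_, ?_⟩
  · rw [hdom]
    by_contra hne
    push Not at hne
    obtain ⟨hH0, hQ0⟩ := hne
    apply hcon
    intro u v
    by_contra huv
    have : (u, v) ∈ Q := by
      simp only [hQ, mem_filter, mem_univ, true_and]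
      refine ⟨?_, ?_, huv⟩ <;> simp [hH0]
    rw [hQ0] at this
    simp at this
  · rw [hdom]
    -- first bound
    have hQb : (Q.card : ℝ) * n / 2 ≤ (O4 K Q).card := by
      have hsig : (Q.sigma (fun q => univ.filter (fun w : V => w ≠ q.1 ∧ w ≠ q.2 ∧
          A1 q.2 w = 1 ∧ A1 q.1 w = 1))).card ≤ (O4 K Q).card := by
        apply Finset.card_le_card_of_injOn
          (fun s : (Σ _ : V × V, V) => (s.1.1, s.1.2, s.2))
        · rintro ⟨⟨u, v⟩, w⟩ hs
          rw [mem_coe, mem_sigma] at hs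
          obtain ⟨h1, h2⟩ := hs
          rw [mem_filter] at h2
          obtain ⟨-, h2, h3, h4, h5⟩ := h2
          rw [mem_coe, O4, mem_filter]
          refine ⟨mem_univ _, ⟨?_, h2.symm, h3.symm⟩, Or.inl ⟨h1, ?_, ?_⟩⟩
          · intro he
            dsimp at he
            subst he
            simp only [hQ, mem_filter, mem_univ, true_and] at h1
            exact h1.2.2 (hc.diag _)
          · rw [hbad]; exact not_not.mpr h4
          · rw [hbad]; exact not_not.mpr h5
        · rintro ⟨⟨u, v⟩, w⟩ _ ⟨⟨u', v'⟩, w'⟩ _ h'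
          simp only [Prod.mk.injEq] at h'
          obtain ⟨h1, h2, h3⟩ := h'
          subst h1; subst h2; subst h3; rfl
      rw [Finset.card_sigma] at hsig
      have hsig' : ∑ q ∈ Q, ((univ.filter (fun w : V => w ≠ q.1 ∧ w ≠ q.2 ∧
          A1 q.2 w = 1 ∧ A1 q.1 w = 1)).card : ℝ) ≤ (O4 K Q).card := by
        exact_mod_cast hsig
      refine le_trans ?_ hsig'
      have each : ∀ q ∈ Q, n / 2 ≤ ((univ.filter (fun w : V => w ≠ q.1 ∧ w ≠ q.2 ∧
          A1 q.2 w = 1 ∧ A1 q.1 w = 1)).card : ℝ) := by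
        rintro ⟨u, v⟩ hq
        simp only [hQ, hH, mem_filter, mem_univ, true_and, not_le] at hq
        obtain ⟨h1, h2, -⟩ := hq
        have hsub : (univ : Finset V) ⊆ (univ.filter (fun w : V => w ≠ u ∧ w ≠ v ∧
          A1 v w = 1 ∧ A1 u w = 1)) ∪ ({u, v} ∪ ((univ.filter (fun w : V => A1 u w ≠ 1)) ∪
            (univ.filter (fun w : V => A1 v w ≠ 1)))) := by
          intro w _
          simp only [mem_union, mem_filter, mem_univ, true_and, mem_insert, mem_singleton]
          by_cases g1 : w = u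
          · right; left; left; exact g1
          · by_cases g2 : w = v
            · right; left; right; exact g2
            · by_cases g3 : A1 u w = 1
              · by_cases g4 : A1 v w = 1
                · left; exact ⟨g1, g2, g4, g3⟩
                · right; right; right; exact g4
              · right; right; left; exact g3
        have g1 := Finset.card_le_card hsub
        have g2 := Finset.card_union_le (univ.filter (fun w : V => w ≠ u ∧ w ≠ v ∧
          A1 v w = 1 ∧ A1 u w = 1)) ({u, v} ∪ ((univ.filter (fun w : V => A1 u w ≠ 1)) ∪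
            (univ.filter (fun w : V => A1 v w ≠ 1))))
        have g3 := Finset.card_union_le ({u, v} : Finset V) ((univ.filter (fun w : V => A1 u w ≠ 1)) ∪
            (univ.filter (fun w : V => A1 v w ≠ 1)))
        have g4 := Finset.card_union_le (univ.filter (fun w : V => A1 u w ≠ 1))
            (univ.filter (fun w : V => A1 v w ≠ 1))
        have g5 : ({u, v} : Finset V).card ≤ 2 := Finset.card_le_two
        rw [Finset.card_univ] at g1
        have g6 : Fintype.card V ≤ (univ.filter (fun w : V => w ≠ u ∧ w ≠ v ∧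
          A1 v w = 1 ∧ A1 u w = 1)).card + 2 + (univ.filter (fun w : V => A1 u w ≠ 1)).card
            + (univ.filter (fun w : V => A1 v w ≠ 1)).card := by omega
        have g7 : n ≤ (univ.filter (fun w : V => w ≠ u ∧ w ≠ v ∧
          A1 v w = 1 ∧ A1 u w = 1)).card + 2 + (univ.filter (fun w : V => A1 u w ≠ 1)).card
            + (univ.filter (fun w : V => A1 v w ≠ 1)).card := by
          rw [hnn]; exact_mod_cast g6
        dsimp
        linarith
      calc (Q.card : ℝ) * n / 2 = ∑ q ∈ Q, n / 2 := by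
            rw [Finset.sum_const, nsmul_eq_mul]; ring
        _ ≤ _ := Finset.sum_le_sum each
    have hHb : (H.card : ℝ) * n ^ 2 / 32 ≤ (O4 K Q).card := by
      have hsig : (H.sigma (fun v => univ.filter (fun q : V × V => q.1 ≠ v ∧ q.2 ≠ v ∧
          A1 v q.1 ≠ A1 v q.2 ∧ A1 q.1 q.2 = 1))).card ≤ (O4 K Q).card := by
        apply Finset.card_le_card_of_injOn
          (fun s : (Σ _ : V, V × V) => (s.1, s.2.1, s.2.2))
        · rintro ⟨v, ⟨u, w⟩⟩ hs
          rw [mem_coe, mem_sigma] at hs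
          obtain ⟨h1, h2⟩ := hs
          rw [mem_filter] at h2
          obtain ⟨-, h2, h3, h4, h5⟩ := h2
          rw [mem_coe, O4, mem_filter]
          refine ⟨mem_univ _, ⟨h2.symm, h3.symm, ?_⟩, Or.inr ⟨κ v, (hK1 _ _).mpr ⟨h1, rfl⟩, ?_, ?_⟩⟩
          · intro he
            dsimp at he
            subst he
            exact h4 rfl
          · rw [hκ2]; exact h4
          · rw [hbad]; exact not_not.mpr h5
        · rintro ⟨u, ⟨v, w⟩⟩ _ ⟨u', ⟨v', w'⟩⟩ _ h'
          simp only [Prod.mk.injEq] at h'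
          obtain ⟨h1, h2, h3⟩ := h'
          subst h1; subst h2; subst h3; rfl
      rw [Finset.card_sigma] at hsig
      have hsig' : ∑ v ∈ H, ((univ.filter (fun q : V × V => q.1 ≠ v ∧ q.2 ≠ v ∧
          A1 v q.1 ≠ A1 v q.2 ∧ A1 q.1 q.2 = 1)).card : ℝ) ≤ (O4 K Q).card := by
        exact_mod_cast hsig
      refine le_trans ?_ hsig'
      have each : ∀ v ∈ H, n ^ 2 / 32 ≤ ((univ.filter (fun q : V × V => q.1 ≠ v ∧ q.2 ≠ v ∧
          A1 v q.1 ≠ A1 v q.2 ∧ A1 q.1 q.2 = 1)).card : ℝ) := by
        intro v hv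
        simp only [hH, mem_filter, mem_univ, true_and] at hv
        have g0 := cross_at hc hmin v (by omega)
        rw [← hnn] at g0
        have hsub : (univ.filter (fun q : V × V => q.1 ≠ v ∧ q.2 ≠ v ∧ A1 v q.1 ≠ A1 v q.2)) ⊆
            (univ.filter (fun q : V × V => q.1 ≠ v ∧ q.2 ≠ v ∧
          A1 v q.1 ≠ A1 v q.2 ∧ A1 q.1 q.2 = 1)) ∪ (univ.filter (fun q : V × V => A1 q.1 q.2 ≠ 1)) := by
          intro q hq
          rw [mem_filter] at hq
          simp only [mem_union, mem_filter, mem_univ, true_and]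
          by_cases g1 : A1 q.1 q.2 = 1
          · left; exact ⟨hq.2.1, hq.2.2.1, hq.2.2.2, g1⟩
          · right; exact g1
        have g1 := Finset.card_le_card hsub
        have g2 := Finset.card_union_le (univ.filter (fun q : V × V => q.1 ≠ v ∧ q.2 ≠ v ∧
          A1 v q.1 ≠ A1 v q.2 ∧ A1 q.1 q.2 = 1)) (univ.filter (fun q : V × V => A1 q.1 q.2 ≠ 1))
        have g3 : ((univ.filter (fun q : V × V => q.1 ≠ v ∧ q.2 ≠ v ∧ A1 v q.1 ≠ A1 v q.2)).card : ℝ)
          ≤ (univ.filter (fun q : V × V => q.1 ≠ v ∧ q.2 ≠ v ∧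
          A1 v q.1 ≠ A1 v q.2 ∧ A1 q.1 q.2 = 1)).card + nb A1 := by
          unfold nb
          exact_mod_cast g1.trans g2
        have g4 : (n - 1) * (n / 8) ≤ (n - 1) * ((univ.filter (fun u : V => A1 v u ≠ 1)).card : ℝ) :=
          mul_le_mul_of_nonneg_left hv (by linarith)
        nlinarith
      calc (H.card : ℝ) * n ^ 2 / 32 = ∑ v ∈ H, n ^ 2 / 32 := by
            rw [Finset.sum_const, nsmul_eq_mul]; ring
        _ ≤ _ := Finset.sum_le_sum each
    linarith
  · rintro ⟨a, b, c⟩ ht hT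
    simp only [O4, mem_filter, mem_univ, true_and] at ht
    obtain ⟨-, ht⟩ := ht
    have h4 := hf a b c hT
    rcases ht with ⟨h1, h2, h3⟩ | ⟨κ', h1, h2, h3⟩
    · rw [hbad, not_not] at h2 h3
      simp only [hQ, mem_filter, mem_univ, true_and] at h1
      apply h1.2.2
      rw [h2, hc.symm a c, h3] at h4
      simpa using h4
    · rw [hK1] at h1
      rw [h1.2, hκ2] at h2
      rw [hbad, not_not] at h3
      apply h2
      rw [h3, mul_one, hc.symm a c] at h4
      exact mul_inv_eq_one.mp h4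

/-- the deterministic part of the gap theorem -/
theorem det_main {A : V → V → G} (hA : IsConn A) {F : Finset (Finset V)} (hF : FlatOn A F)
    (d0 s0 k0 : ℝ) (hd0 : 64 ≤ d0) (hn : 8 ≤ Fintype.card V)
    (hsk : k0 + 2 * s0 * Fintype.card V ≤ (Fintype.card V : ℝ) ^ 2 / 32)
    (hb1 : ¬ Bad1 d0 F) (hb2 : ¬ Bad2 d0 s0 F) (hb3 : ¬ Bad3 d0 k0 F) (hb4 : ¬ Bad4 F)
    (x : V) (hx : 2 * (Fintype.card V : ℝ) * d0 ≤ (Ex A x).card) :
    ∀ a b c, A a b * A b c * A c a = 1 := by
  obtain ⟨D, hD, hN⟩ := step1 hA hF d0 (by linarith) hb1 x hx (by omega)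
  set A1 := gauge (fun u => A u x) A with hA1
  have hc1 : IsConn A1 := hA.gauge _
  have hf1 : FlatOn A1 F := hF.gauge _
  have hs := step2 hc1 hf1 d0 s0 hd0 D hD hN hb2
  obtain ⟨h, hh⟩ := step3 hc1 hf1 d0 k0 hd0 D hD hb3
  have hc2 : IsConn (gauge h A1) := hc1.gauge _
  have hf2 : FlatOn (gauge h A1) F := hf1.gauge _
  have hnb : (nb (gauge h A1) : ℝ) ≤ (Fintype.card V : ℝ) ^ 2 / 32 := by
    have hsub : (univ.filter (fun q : V × V => gauge h A1 q.1 q.2 ≠ 1)) ⊆
        (univ.filter (fun q : V × V => q.1 ∉ badv A1 D ∧ q.2 ∉ badv A1 D ∧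
        gauge h A1 q.1 q.2 ≠ 1)) ∪ ((badv A1 D) ×ˢ univ ∪ univ ×ˢ (badv A1 D)) := by
      intro q hq
      rw [mem_filter] at hq
      simp only [mem_union, mem_filter, mem_univ, true_and, mem_product, and_true]
      by_cases g1 : q.1 ∈ badv A1 D
      · right; left; exact g1
      · by_cases g2 : q.2 ∈ badv A1 D
        · right; right; exact g2
        · left; exact ⟨g1, g2, hq.2⟩
    have g1 := Finset.card_le_card hsub
    have g2 := Finset.card_union_le (univ.filter (fun q : V × V => q.1 ∉ badv A1 D ∧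
        q.2 ∉ badv A1 D ∧ gauge h A1 q.1 q.2 ≠ 1)) ((badv A1 D) ×ˢ univ ∪ univ ×ˢ (badv A1 D))
    have g3 := Finset.card_union_le ((badv A1 D) ×ˢ (univ : Finset V))
      ((univ : Finset V) ×ˢ (badv A1 D))
    rw [Finset.card_product, Finset.card_product, Finset.card_univ] at g3
    have g4 : nb (gauge h A1) ≤ (univ.filter (fun q : V × V => q.1 ∉ badv A1 D ∧
        q.2 ∉ badv A1 D ∧ gauge h A1 q.1 q.2 ≠ 1)).card + ((badv A1 D).card * Fintype.card V
        + Fintype.card V * (badv A1 D).card) := by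
      unfold nb; omega
    have g5 : (nb (gauge h A1) : ℝ) ≤ (univ.filter (fun q : V × V => q.1 ∉ badv A1 D ∧
        q.2 ∉ badv A1 D ∧ gauge h A1 q.1 q.2 ≠ 1)).card + ((badv A1 D).card * Fintype.card V
        + Fintype.card V * (badv A1 D).card) := by exact_mod_cast g4
    have hpos : (0 : ℝ) ≤ Fintype.card V := Nat.cast_nonneg _
    nlinarith
  obtain ⟨h', hh'⟩ := step5 hc2 hf2 hn hnb hb4
  intro a b c
  have e : ∀ u v, A u v = (A u x * h u * h' u) * (A v x * h v * h' v)⁻¹ := by
    intro u v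
    have := hh' u v
    simp only [gauge, hA1] at this
    calc A u v = (A u x * h u * h' u) * ((h' u)⁻¹ * ((h u)⁻¹ * ((A u x)⁻¹ * A u v * A v x) * h v)
          * h' v) * (A v x * h v * h' v)⁻¹ := by group
      _ = _ := by rw [this]; group
  rw [e a b, e b c, e c a]
  group

end

end Pool.Agent.helper182_gap
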