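import Pool.Agent.helper182_gap.Union

set_option autoImplicit false
set_option linter.unusedSectionVars false
set_option linter.unusedSimpArgs false
set_option linter.unusedVariables false

open Finset Classical

namespace Pool.Agent.helper182_gap

section
variable {V : Type*} [Fintype V] [DecidableEq V]

lemma mem_Ex {G : Type*} [Group G] (A : V → V → G) (x : V) (q : V × V) : q ∈ Ex A x ↔
    q.1 ≠ q.2 ∧ q.1 ≠ x ∧ q.2 ≠ x ∧ A x q.1 * A q.1 q.2 * A q.2 x = 1 := by
  simp only [Ex, mem_filter, mem_univ, true_and]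

lemma exp_neg_mul_log (n : ℕ) (hn : 0 < n) (k : ℕ) :
    Real.exp (-(k * Real.log n)) = 1 / (n : ℝ) ^ k := by
  rw [Real.exp_neg, ← Real.log_pow, Real.exp_log (by positivity), one_div]

/-- sums over nonempty sets -/
lemma sum_sets_le (n : ℕ) (hV : Fintype.card V = n) (hn : 8 ≤ n) (d0 : ℝ) (hd0 : 0 < d0)
    (f : Finset V → ℝ)
    (hf : ∀ D : Finset V, d0 ≤ D.card → f D ≤ (1 / (n : ℝ) ^ 3) ^ D.card) :
    ∑ D ∈ (univ : Finset (Finset V)).filter (fun D => d0 ≤ D.card), f D ≤ 1 / n := by
  have hn' : (8 : ℝ) ≤ n := by exact_mod_cast hn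
  have hnpos : (0 : ℝ) < n := by linarith
  have h1 : ∑ D ∈ (univ : Finset (Finset V)).filter (fun D => d0 ≤ D.card), f D
      ≤ ∑ D ∈ (univ : Finset (Finset V)).filter (fun D => D.Nonempty),
        (1 / (n : ℝ) ^ 3) ^ D.card := by
    calc _ ≤ ∑ D ∈ (univ : Finset (Finset V)).filter (fun D => d0 ≤ D.card),
          (1 / (n : ℝ) ^ 3) ^ D.card := by
          apply Finset.sum_le_sum
          intro D hD
          simp only [mem_filter, mem_univ, true_and] at hD
          exact hf D hD
      _ ≤ _ := by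
          apply Finset.sum_le_sum_of_subset_of_nonneg
          · intro D hD
            simp only [mem_filter, mem_univ, true_and] at hD ⊢
            rw [← Finset.card_pos]
            have : (0 : ℝ) < D.card := lt_of_lt_of_le hd0 hD
            exact_mod_cast this
          · intro _ _ _; positivity
  have e1 : (n : ℝ) * (1 / (n : ℝ) ^ 3) = 1 / (n : ℝ) ^ 2 := by field_simp
  have h3 : 1 / (n : ℝ) ^ 2 ≤ 1 / 2 * (1 / n) := by
    rw [div_mul_div_comm, one_mul, div_le_div_iff₀ (by positivity) (by positivity)]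
    nlinarith
  have h4 : (1 : ℝ) / n ≤ 1 := by
    rw [div_le_one hnpos]; linarith
  have h2 := sum_nonempty_pow (α := V) (1 / (n : ℝ) ^ 3) (by positivity)
    (by rw [hV, e1]; linarith)
  rw [hV, e1] at h2
  linarith

lemma log_facts (n : ℕ) (hn : 8 ≤ n) : 2 ≤ Real.log n ∧ Real.log n ≤ n := by
  have hn' : (8 : ℝ) ≤ n := by exact_mod_cast hn
  constructor
  · have h1 : Real.log 8 ≤ Real.log n := Real.log_le_log (by norm_num) hn'
    have h2 : Real.log 8 = 3 * Real.log 2 := by
      rw [show (8 : ℝ) = 2 ^ 3 by norm_num, Real.log_pow]; norm_num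
    have h3 := Real.log_two_gt_d9
    linarith
  · have := Real.log_le_sub_one_of_pos (x := (n : ℝ)) (by linarith)
    linarith

/-- the probability that one of the bad events holds -/
theorem prob_bad (n : ℕ) (hV : Fintype.card V = n) (hn : 8 ≤ n) {p : ℝ} (h0 : 0 < p) (h1 : p ≤ 1)
    (hp : 240000 * Real.log n ≤ p * n) :
    Pr p (fun F : Finset (Finset V) => Bad1 (10000 * Real.log n / p) F ∨
      Bad2 (10000 * Real.log n / p) (3456 / p) F ∨
      Bad3 (10000 * Real.log n / p) (540 * n / p) F ∨ Bad4 F) ≤ 4 / n := by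
  obtain ⟨hl2, hln⟩ := log_facts n hn
  have hn' : (8 : ℝ) ≤ n := by exact_mod_cast hn
  have hnpos : (0 : ℝ) < n := by linarith
  have hnn : 0 < n := by omega
  set l := Real.log n with hl
  set d0 : ℝ := 10000 * l / p with hd0
  have hpd0 : p * d0 = 10000 * l := by rw [hd0]; field_simp
  have hd0l : 10000 * l ≤ d0 := by
    rw [hd0, le_div_iff₀ h0]
    nlinarith
  have hd0pos : 0 < d0 := by linarith
  have expl : ∀ k : ℕ, Real.exp (-(k * l)) = 1 / (n : ℝ) ^ k := by
    intro k; rw [hl]; exact exp_neg_mul_log n hnn k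
  have hexpn : ∀ m : ℕ, (n : ℝ) ^ m = Real.exp (m * l) := by
    intro m
    rw [hl, ← Real.log_pow, Real.exp_log (by positivity)]
  have two_le_exp : (2 : ℝ) ≤ Real.exp 1 := by
    have := Real.add_one_le_exp (1 : ℝ); linarith
  -- Bad1
  have b1 : Pr p (Bad1 (V := V) d0) ≤ 1 / n := by
    have e1 : Real.exp (-(p * d0 / 1728)) ≤ 1 / (n : ℝ) ^ 5 := by
      rw [← expl 5]
      apply Real.exp_le_exp.mpr
      rw [hpd0]; push_cast; linarith
    have e2 : (n : ℝ) ^ 2 * Real.exp (-(p * d0 / 1728)) ≤ 1 / (n : ℝ) ^ 3 := by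
      calc _ ≤ (n : ℝ) ^ 2 * (1 / (n : ℝ) ^ 5) := by
            apply mul_le_mul_of_nonneg_left e1; positivity
        _ = _ := by field_simp
    have e3 : 1 / (n : ℝ) ^ 3 ≤ 1 / 2 * (1 / n) := by
      rw [div_mul_div_comm, one_mul, div_le_div_iff₀ (by positivity) (by positivity)]
      have : (n : ℝ) ^ 3 = n * n * n := by ring
      nlinarith
    have e4 : (1 : ℝ) / n ≤ 1 := by rw [div_le_one hnpos]; linarith
    have := prob_bad1 (V := V) h0.le h1 d0 (by rw [hV]; linarith)
    rw [hV] at this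
    linarith
  -- Bad2
  have b2 : Pr p (Bad2 (V := V) d0 (3456 / p)) ≤ 1 / n := by
    refine (prob_bad2 (V := V) h0.le h1 d0 (3456 / p) (by positivity)).trans ?_
    apply sum_sets_le n hV hn d0 hd0pos
    intro D hD
    have hdn : D.card ≤ n := by rw [← hV]; exact Finset.card_le_univ D
    have hd1 : (1 : ℝ) ≤ D.card := by linarith
    have hdn' : (D.card : ℝ) ≤ n := by exact_mod_cast hdn
    have q1 : 3456 / p * (p * (D.card : ℝ) ^ 2 / 864) = 4 * (D.card : ℝ) ^ 2 := by
      field_simp; ring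
    have q2 : 3 * ((D.card : ℝ) * l) ≤ p * (D.card : ℝ) ^ 2 / 864 := by
      have : 10000 * l ≤ p * D.card := by
        rw [← hpd0]; exact mul_le_mul_of_nonneg_left hD h0.le
      have := mul_le_mul_of_nonneg_right this (show (0 : ℝ) ≤ D.card by linarith)
      nlinarith
    have q3 : (D.card : ℝ) ^ D.card * Real.exp (-(p * (D.card : ℝ) ^ 2 / 864)) ≤ 1 / n := by
      calc _ ≤ (n : ℝ) ^ D.card * Real.exp (-(3 * ((D.card : ℝ) * l))) := by
            apply mul_le_mul _ _ (Real.exp_pos _).le (by positivity)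
            · exact pow_le_pow_left₀ (by linarith) hdn' _
            · apply Real.exp_le_exp.mpr; linarith
        _ = Real.exp (-(2 * ((D.card : ℝ) * l))) := by
            rw [hexpn, ← Real.exp_add]; congr 1; ring
        _ ≤ Real.exp (-((1 : ℕ) * l)) := by
            apply Real.exp_le_exp.mpr
            push_cast
            nlinarith
        _ = 1 / n := by rw [expl 1, pow_one]
    have q4 : (1 + (D.card : ℝ) ^ D.card * Real.exp (-(p * (D.card : ℝ) ^ 2 / 864))) ^ n
        ≤ Real.exp 1 := by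
      calc _ ≤ (1 + 1 / (n : ℝ)) ^ n := by
            apply pow_le_pow_left₀ (by positivity)
            linarith
        _ ≤ Real.exp (n * (1 / (n : ℝ))) := one_add_pow_le _ (by positivity) n
        _ = Real.exp 1 := by congr 1; field_simp
    rw [hV, q1]
    calc _ ≤ Real.exp 1 ^ (D.card ^ 2) * Real.exp (-(4 * (D.card : ℝ) ^ 2)) * Real.exp 1 := by
          apply mul_le_mul _ q4 (by positivity) (by positivity)
          apply mul_le_mul_of_nonneg_right _ (Real.exp_pos _).le
          exact pow_le_pow_left₀ (by norm_num) two_le_exp _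
      _ = Real.exp (1 - 3 * (D.card : ℝ) ^ 2) := by
          rw [← Real.exp_nat_mul, ← Real.exp_add, ← Real.exp_add]
          congr 1; push_cast; ring
      _ ≤ Real.exp (-((3 : ℕ) * l)) ^ D.card := by
          rw [← Real.exp_nat_mul]
          apply Real.exp_le_exp.mpr
          push_cast
          nlinarith
      _ = _ := by rw [expl 3]
  -- Bad3
  have b3 : Pr p (Bad3 (V := V) d0 (540 * n / p)) ≤ 1 / n := by
    refine (prob_bad3 (V := V) h0.le h1 d0 (540 * n / p) (by positivity)).trans ?_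
    apply sum_sets_le n hV hn d0 hd0pos
    intro D hD
    have hd1 : (1 : ℝ) ≤ D.card := by linarith
    have q1 : 540 * n / p * (p * (D.card : ℝ) / 108) = 5 * (D.card * n : ℝ) := by
      field_simp; ring
    have q2 : 2 * l ≤ p * (D.card : ℝ) / 108 := by
      have : 10000 * l ≤ p * D.card := by
        rw [← hpd0]; exact mul_le_mul_of_nonneg_left hD h0.le
      linarith
    have q3 : Real.exp (-(p * (D.card : ℝ) / 108)) ≤ 1 / (n : ℝ) ^ 2 := by
      rw [← expl 2]
      apply Real.exp_le_exp.mpr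
      push_cast; linarith
    have q4 : (1 + Real.exp (-(p * (D.card : ℝ) / 108))) ^ (n ^ 2) ≤ Real.exp 1 := by
      calc _ ≤ (1 + 1 / (n : ℝ) ^ 2) ^ (n ^ 2) := by
            apply pow_le_pow_left₀ (by positivity)
            linarith
        _ ≤ Real.exp ((n ^ 2 : ℕ) * (1 / (n : ℝ) ^ 2)) := one_add_pow_le _ (by positivity) _
        _ = Real.exp 1 := by congr 1; push_cast; field_simp
    rw [hV, q1]
    have hdn1 : (1 : ℝ) ≤ D.card * n := by nlinarith
    calc _ ≤ Real.exp 1 ^ (D.card * n) * Real.exp (-(5 * ((D.card : ℝ) * n))) * Real.exp 1 := by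
          apply mul_le_mul _ q4 (by positivity) (by positivity)
          apply mul_le_mul_of_nonneg_right _ (Real.exp_pos _).le
          exact pow_le_pow_left₀ (by norm_num) two_le_exp _
      _ = Real.exp (1 - 4 * ((D.card : ℝ) * n)) := by
          rw [← Real.exp_nat_mul, ← Real.exp_add, ← Real.exp_add]
          congr 1; push_cast; ring
      _ ≤ Real.exp (-((3 : ℕ) * l)) ^ D.card := by
          rw [← Real.exp_nat_mul]
          apply Real.exp_le_exp.mpr
          push_cast
          nlinarith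
      _ = _ := by rw [expl 3]
  -- Bad4
  have b4 : Pr p (Bad4 (V := V)) ≤ 1 / n := by
    refine (prob_bad4 (V := V) h0.le h1).trans ?_
    rw [hV]
    have q1 : Real.exp (-(p * (n : ℝ) / 108)) ≤ 1 / (n : ℝ) ^ 4 := by
      rw [← expl 4]
      apply Real.exp_le_exp.mpr
      push_cast; linarith
    have q2 : (n : ℝ) ^ n * Real.exp (-(p * (n : ℝ) ^ 2 / 1728)) ≤ 1 / (n : ℝ) ^ 3 := by
      have g : 4 * (n * l : ℝ) ≤ p * (n : ℝ) ^ 2 / 1728 := by
        have := mul_le_mul_of_nonneg_right hp hnpos.le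
        nlinarith
      calc _ ≤ Real.exp (n * l) * Real.exp (-(4 * (n * l))) := by
            rw [hexpn]
            apply mul_le_mul_of_nonneg_left _ (Real.exp_pos _).le
            apply Real.exp_le_exp.mpr; linarith
        _ = Real.exp (-(3 * (n * l))) := by rw [← Real.exp_add]; congr 1; ring
        _ ≤ Real.exp (-((3 : ℕ) * l)) := by
            apply Real.exp_le_exp.mpr
            push_cast; nlinarith
        _ = _ := expl 3
    have q3 : (1 + Real.exp (-(p * (n : ℝ) / 108))) ^ (n ^ 2) ≤ Real.exp (1 / (n : ℝ) ^ 2) := by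
      calc _ ≤ (1 + 1 / (n : ℝ) ^ 4) ^ (n ^ 2) := by
            apply pow_le_pow_left₀ (by positivity)
            linarith
        _ ≤ Real.exp ((n ^ 2 : ℕ) * (1 / (n : ℝ) ^ 4)) := one_add_pow_le _ (by positivity) _
        _ = _ := by congr 1; push_cast; field_simp
    have q4 : (1 + (n : ℝ) ^ n * Real.exp (-(p * (n : ℝ) ^ 2 / 1728))) ^ n
        ≤ Real.exp (1 / (n : ℝ) ^ 2) := by
      calc _ ≤ (1 + 1 / (n : ℝ) ^ 3) ^ n := by
            apply pow_le_pow_left₀ (by positivity)
            linarith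
        _ ≤ Real.exp (n * (1 / (n : ℝ) ^ 3)) := one_add_pow_le _ (by positivity) _
        _ = _ := by congr 1; field_simp
    have q5 : 2 / (n : ℝ) ^ 2 ≤ 1 / 4 * (1 / n) := by
      rw [div_mul_div_comm, one_mul, div_le_div_iff₀ (by positivity) (by positivity)]
      nlinarith
    have q6 : (1 : ℝ) / n ≤ 1 := by rw [div_le_one hnpos]; linarith
    have q7 := exp_sub_one_le (x := 2 / (n : ℝ) ^ 2) (by positivity) (by linarith)
    have q8 : Real.exp (1 / (n : ℝ) ^ 2) * Real.exp (1 / (n : ℝ) ^ 2) = Real.exp (2 / (n : ℝ) ^ 2) := by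
      rw [← Real.exp_add]; congr 1; ring
    have q9 : (1 + Real.exp (-(p * (n : ℝ) / 108))) ^ (n ^ 2) *
      (1 + (n : ℝ) ^ n * Real.exp (-(p * (n : ℝ) ^ 2 / 1728))) ^ n ≤ Real.exp (2 / (n : ℝ) ^ 2) := by
      rw [← q8]
      exact mul_le_mul q3 q4 (by positivity) (Real.exp_pos _).le
    have q10 : (0 : ℝ) < 1 / n := by positivity
    linarith
  have c1 := Pr_or (V := V) h0.le h1 (Bad1 d0) (fun F => Bad2 d0 (3456 / p) F ∨
      Bad3 d0 (540 * n / p) F ∨ Bad4 F)
  have c2 := Pr_or (V := V) h0.le h1 (Bad2 d0 (3456 / p)) (fun F => Bad3 d0 (540 * n / p) F ∨ Bad4 F)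
  have c3 := Pr_or (V := V) h0.le h1 (Bad3 d0 (540 * n / p)) Bad4
  have : (4 : ℝ) / n = 1 / n + 1 / n + 1 / n + 1 / n := by ring
  rw [this]
  linarith

/-- the gap theorem for connections -/
theorem gap_conn (n : ℕ) (hV : Fintype.card V = n) (hn : 8 ≤ n) {p : ℝ} (h0 : 0 < p) (h1 : p ≤ 1)
    (F : Finset (Finset V)) (hp : 240000 * Real.log n ≤ p * n)
    (hF : ¬ (Bad1 (10000 * Real.log n / p) F ∨
      Bad2 (10000 * Real.log n / p) (3456 / p) F ∨
      Bad3 (10000 * Real.log n / p) (540 * n / p) F ∨ Bad4 F))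
    {G : Type*} [Group G] (A : V → V → G) (hA : IsConn A) (hAF : FlatOn A F)
    (x : V) (hx : 20000 * n * Real.log n / p ≤ (Ex A x).card) :
    ∀ a b c, A a b * A b c * A c a = 1 := by
  obtain ⟨hl2, hln⟩ := log_facts n hn
  have hn' : (8 : ℝ) ≤ n := by exact_mod_cast hn
  have hnpos : (0 : ℝ) < n := by linarith
  simp only [not_or] at hF
  obtain ⟨hb1, hb2, hb3, hb4⟩ := hF
  apply det_main hA hAF (10000 * Real.log n / p) (3456 / p) (540 * n / p) _ (by omega) _
    hb1 hb2 hb3 hb4 x
  · rw [hV]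
    calc _ = 20000 * n * Real.log n / p := by ring
      _ ≤ _ := hx
  · rw [le_div_iff₀ h0]; nlinarith
  · rw [hV]
    have : 540 * (n : ℝ) / p + 2 * (3456 / p) * n = 7452 * n / p := by ring
    rw [this, div_le_iff₀ h0]
    nlinarith

end

end Pool.Agent.helper182_gap
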