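import Mathlib

set_option autoImplicit false

open Finset

namespace Pool.Agent.helper182_gap

/-- all three-element subsets of `V` -/
def Tr (V : Type*) [Fintype V] [DecidableEq V] : Finset (Finset V) :=
  (Finset.univ : Finset (Finset V)).filter (fun s => s.card = 3)

section
variable {V : Type*} [Fintype V] [DecidableEq V]

/-- weight of a set of triples -/
noncomputable def wt (p : ℝ) (F : Finset (Finset V)) : ℝ :=
  p ^ F.card * (1 - p) ^ ((Tr V).card - F.card)

open Classical in
/-- probability of a property of the random set of triples -/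
noncomputable def Pr (p : ℝ) (Q : Finset (Finset V) → Prop) : ℝ :=
  ∑ F ∈ (Tr V).powerset, if Q F then wt p F else 0

lemma wt_nonneg {p : ℝ} (h0 : 0 ≤ p) (h1 : p ≤ 1) (F : Finset (Finset V)) : 0 ≤ wt p F := by
  unfold wt
  have : 0 ≤ 1 - p := by linarith
  positivity

lemma Pr_nonneg {p : ℝ} (h0 : 0 ≤ p) (h1 : p ≤ 1) (Q : Finset (Finset V) → Prop) :
    0 ≤ Pr p Q := by
  classical
  unfold Pr
  apply Finset.sum_nonneg
  intro F _
  split_ifs
  · exact wt_nonneg h0 h1 F
  · exact le_rfl

lemma Pr_mono {p : ℝ} (h0 : 0 ≤ p) (h1 : p ≤ 1) {Q Q' : Finset (Finset V) → Prop}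
    (h : ∀ F ∈ (Tr V).powerset, Q F → Q' F) : Pr p Q ≤ Pr p Q' := by
  classical
  unfold Pr
  apply Finset.sum_le_sum
  intro F hF
  have := wt_nonneg h0 h1 F
  by_cases hq : Q F
  · have hq' := h F hF hq
    simp [hq, hq']
  · by_cases hq' : Q' F
    · simp [hq, hq', this]
    · simp [hq, hq']

lemma Pr_true {p : ℝ} : Pr p (fun _ : Finset (Finset V) => True) = 1 := by
  classical
  unfold Pr wt
  simp only [if_true]
  rw [Finset.sum_pow_mul_eq_add_pow]
  simp

lemma Pr_le_one {p : ℝ} (h0 : 0 ≤ p) (h1 : p ≤ 1) (Q : Finset (Finset V) → Prop) :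
    Pr p Q ≤ 1 := by
  rw [← Pr_true (V := V) (p := p)]
  exact Pr_mono h0 h1 (fun _ _ _ => trivial)

lemma Pr_union {ι : Type*} {p : ℝ} (h0 : 0 ≤ p) (h1 : p ≤ 1) (s : Finset ι)
    (Q : ι → Finset (Finset V) → Prop) :
    Pr p (fun F => ∃ i ∈ s, Q i F) ≤ ∑ i ∈ s, Pr p (Q i) := by
  classical
  unfold Pr
  rw [Finset.sum_comm]
  apply Finset.sum_le_sum
  intro F _
  have hw := wt_nonneg h0 h1 F
  by_cases h : ∃ i ∈ s, Q i F
  · obtain ⟨i, hi, hq⟩ := h
    have : (if Q i F then wt p F else 0) ≤ ∑ i ∈ s, if Q i F then wt p F else 0 := by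
      apply Finset.single_le_sum (f := fun i => if Q i F then wt p F else 0) _ hi
      intro j _
      split_ifs
      · exact hw
      · exact le_rfl
    rw [if_pos hq] at this
    rw [if_pos ⟨i, hi, hq⟩]
    exact this
  · rw [if_neg h]
    apply Finset.sum_nonneg
    intro j _
    split_ifs
    · exact hw
    · exact le_rfl

lemma Pr_or {p : ℝ} (h0 : 0 ≤ p) (h1 : p ≤ 1) (Q Q' : Finset (Finset V) → Prop) :
    Pr p (fun F => Q F ∨ Q' F) ≤ Pr p Q + Pr p Q' := by
  classical
  unfold Pr
  rw [← Finset.sum_add_distrib]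
  apply Finset.sum_le_sum
  intro F _
  have hw := wt_nonneg h0 h1 F
  by_cases hq : Q F <;> by_cases hq' : Q' F <;> simp [hq, hq', hw]

lemma Pr_avoid {p : ℝ} (N : Finset (Finset V)) (hN : N ⊆ Tr V) :
    Pr p (fun F => Disjoint F N) = (1 - p) ^ N.card := by
  classical
  have e0 : Pr p (fun F => Disjoint F N)
      = ∑ F ∈ (Tr V).powerset.filter (fun F => Disjoint F N), wt p F := by
    unfold Pr
    rw [Finset.sum_filter]
    apply Finset.sum_congr rfl
    intro F _
    by_cases hd : Disjoint F N <;> simp [hd]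
  rw [e0]
  have e : (Tr V).powerset.filter (fun F => Disjoint F N) = (Tr V \ N).powerset := by
    ext F
    simp only [Finset.mem_filter, Finset.mem_powerset, Finset.subset_sdiff]
  rw [e]
  have hc : (Tr V).card = (Tr V \ N).card + N.card := by
    rw [Finset.card_sdiff_add_card_eq_card hN]
  have : ∀ F ∈ (Tr V \ N).powerset,
      wt p F = (1 - p) ^ N.card * (p ^ F.card * (1 - p) ^ ((Tr V \ N).card - F.card)) := by
    intro F hF
    rw [Finset.mem_powerset] at hF
    have hle := Finset.card_le_card hF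
    unfold wt
    have : (Tr V).card - F.card = N.card + ((Tr V \ N).card - F.card) := by omega
    rw [this, pow_add]
    ring
  rw [Finset.sum_congr rfl this, ← Finset.mul_sum, Finset.sum_pow_mul_eq_add_pow]
  simp

/-- the set of the three entries -/
def tri (t : V × V × V) : Finset V := {t.1, t.2.1, t.2.2}

/-- three different entries -/
def Dis (t : V × V × V) : Prop := t.1 ≠ t.2.1 ∧ t.1 ≠ t.2.2 ∧ t.2.1 ≠ t.2.2

lemma tri_mem_Tr {t : V × V × V} (h : Dis t) : tri t ∈ Tr V := by
  obtain ⟨h1, h2, h3⟩ := h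
  simp only [Tr, tri, Finset.mem_filter, Finset.mem_univ, true_and]
  rw [Finset.card_eq_three]
  exact ⟨_, _, _, h1, h2, h3, rfl⟩

lemma card_image_tri (O : Finset (V × V × V)) (h : ∀ t ∈ O, Dis t) :
    O.card ≤ 27 * (O.image tri).card := by
  apply Finset.card_le_mul_card_image
  intro T hT
  rw [Finset.mem_image] at hT
  obtain ⟨t, ht, rfl⟩ := hT
  have hc : (tri t).card = 3 := by
    have := tri_mem_Tr (h t ht)
    simp only [Tr, Finset.mem_filter] at this
    exact this.2
  have hsub : O.filter (fun x => tri x = tri t) ⊆ (tri t) ×ˢ (tri t) ×ˢ (tri t) := by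
    intro x hx
    rw [Finset.mem_filter] at hx
    rw [Finset.mem_product, Finset.mem_product, ← hx.2]
    simp [tri]
  calc _ ≤ ((tri t) ×ˢ (tri t) ×ˢ (tri t)).card := Finset.card_le_card hsub
    _ = 27 := by rw [Finset.card_product, Finset.card_product, hc]

/-- the basic estimate: the random set avoids the triples of a set `O` of ordered triples -/
lemma Pr_avoid_ordered {p : ℝ} (h0 : 0 ≤ p) (h1 : p ≤ 1) (O : Finset (V × V × V))
    (h : ∀ t ∈ O, Dis t) :
    Pr p (fun F => ∀ t ∈ O, tri t ∉ F) ≤ Real.exp (-(p * O.card / 27)) := by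
  have hN : O.image tri ⊆ Tr V := by
    intro T hT
    rw [Finset.mem_image] at hT
    obtain ⟨t, ht, rfl⟩ := hT
    exact tri_mem_Tr (h t ht)
  have e1 : Pr p (fun F : Finset (Finset V) => ∀ t ∈ O, tri t ∉ F)
      ≤ Pr p (fun F => Disjoint F (O.image tri)) := by
    apply Pr_mono h0 h1
    intro F _ hF
    rw [Finset.disjoint_right]
    intro T hT
    rw [Finset.mem_image] at hT
    obtain ⟨t, ht, rfl⟩ := hT
    exact hF t ht
  rw [Pr_avoid _ hN] at e1
  have hc : (O.card : ℝ) ≤ 27 * (O.image tri).card := by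
    exact_mod_cast card_image_tri O h
  have e2 : (1 - p) ^ (O.image tri).card ≤ Real.exp (-(p * O.card / 27)) := by
    calc (1 - p) ^ (O.image tri).card ≤ (Real.exp (-p)) ^ (O.image tri).card := by
          apply pow_le_pow_left₀ (by linarith)
          have := Real.add_one_le_exp (-p)
          linarith
      _ = Real.exp (-(p * (O.image tri).card)) := by
          rw [← Real.exp_nat_mul]; congr 1; ring
      _ ≤ _ := by
          apply Real.exp_le_exp.mpr
          have : p * O.card ≤ p * (27 * (O.image tri).card) := mul_le_mul_of_nonneg_left hc h0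
          linarith
  exact e1.trans e2

/-- union bound over patterns -/
lemma Pr_patterns {ι : Type*} {p : ℝ} (h0 : 0 ≤ p) (h1 : p ≤ 1) (s : Finset ι)
    (O : ι → Finset (V × V × V)) (h : ∀ i ∈ s, ∀ t ∈ O i, Dis t) :
    Pr p (fun F => ∃ i ∈ s, ∀ t ∈ O i, tri t ∉ F)
      ≤ ∑ i ∈ s, Real.exp (-(p * (O i).card / 27)) :=
  (Pr_union h0 h1 s _).trans
    (Finset.sum_le_sum (fun i hi => Pr_avoid_ordered h0 h1 (O i) (h i hi)))

end

end Pool.Agent.helper182_gap
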