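import Pool.Agent.helper182_gap.Det3

set_option autoImplicit false
set_option linter.unusedSectionVars false
set_option linter.unusedSimpArgs false
set_option linter.unusedVariables false

open Finset Classical

namespace Pool.Agent.helper182_gap

section
variable {V : Type*} [Fintype V] [DecidableEq V]

lemma sum_finset_pow {α : Type*} [Fintype α] (t : ℝ) :
    ∑ E : Finset α, t ^ E.card = (1 + t) ^ Fintype.card α := by
  have := Finset.sum_pow_mul_eq_add_pow t 1 (univ : Finset α)
  simp only [one_pow, mul_one, powerset_univ, card_univ] at this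
  rw [this, add_comm]

lemma sum_opt {β : Type*} [Fintype β] (x : ℝ) :
    ∑ K : V → Option β, x ^ (dom K).card = (1 + Fintype.card β * x) ^ Fintype.card V := by
  have h1 : ∀ K : V → Option β, x ^ (dom K).card
      = ∏ w : V, (if (K w).isSome then x else 1) := by
    intro K
    rw [dom, ← Finset.prod_const, Finset.prod_filter]
  simp_rw [h1]
  have h2 := (Finset.prod_univ_sum (fun _ : V => (univ : Finset (Option β)))
    (fun (_ : V) (o : Option β) => if o.isSome then x else (1 : ℝ))).symm
  rw [Fintype.piFinset_univ] at h2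
  rw [h2, Fintype.sum_option]
  simp [Finset.prod_const]

lemma one_add_pow_le (x : ℝ) (hx : 0 ≤ x) (m : ℕ) : (1 + x) ^ m ≤ Real.exp (m * x) := by
  rw [Real.exp_nat_mul]
  apply pow_le_pow_left₀ (by linarith)
  have := Real.add_one_le_exp x
  linarith

lemma exp_sub_one_le {x : ℝ} (h0 : 0 ≤ x) (h1 : x ≤ 1 / 2) : Real.exp x - 1 ≤ 2 * x := by
  have h2 : (1 - x) * Real.exp x ≤ 1 := by
    have h3 : 1 - x ≤ Real.exp (-x) := by
      have := Real.add_one_le_exp (-x); linarith
    calc (1 - x) * Real.exp x ≤ Real.exp (-x) * Real.exp x :=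
          mul_le_mul_of_nonneg_right h3 (Real.exp_pos x).le
      _ = 1 := by rw [← Real.exp_add]; simp
  have h4 : 0 < Real.exp x := Real.exp_pos x
  nlinarith

lemma sum_nonempty_pow {α : Type*} [Fintype α] (t : ℝ) (h0 : 0 ≤ t)
    (h1 : Fintype.card α * t ≤ 1 / 2) :
    ∑ E ∈ (univ : Finset (Finset α)).filter (fun E => E.Nonempty), t ^ E.card
      ≤ 2 * (Fintype.card α * t) := by
  have h2 : ∑ E ∈ (univ : Finset (Finset α)).filter (fun E => E.Nonempty), t ^ E.card + 1
      = (1 + t) ^ Fintype.card α := by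
    rw [← sum_finset_pow, ← Finset.sum_filter_add_sum_filter_not univ (fun E : Finset α => E.Nonempty)]
    congr 1
    have : (univ : Finset (Finset α)).filter (fun E => ¬ E.Nonempty) = {∅} := by
      ext E; simp [Finset.not_nonempty_iff_eq_empty]
    rw [this]; simp
  have h3 := one_add_pow_le t h0 (Fintype.card α)
  have h4 := exp_sub_one_le (by positivity) h1
  linarith

/-! ### Bad1 -/

lemma prob_bad1 {p : ℝ} (h0 : 0 ≤ p) (h1 : p ≤ 1) (d0 : ℝ)
    (hd : (Fintype.card V : ℝ) ^ 2 * Real.exp (-(p * d0 / 1728)) ≤ 1 / 2) :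
    Pr p (Bad1 (V := V) d0) ≤ 2 * ((Fintype.card V : ℝ) ^ 2 * Real.exp (-(p * d0 / 1728))) := by
  have e1 : Pr p (Bad1 (V := V) d0) ≤ Pr p (fun F => ∃ E ∈ (univ : Finset (Finset (V × V))).filter
      (fun E => E.Nonempty ∧ d0 / 64 * E.card ≤ (O1 E).card), ∀ t ∈ O1 E, tri t ∉ F) := by
    apply Pr_mono h0 h1
    rintro F _ ⟨E, hE1, hE2, hE3⟩
    exact ⟨E, by simp [hE1, hE2], hE3⟩
  have e2 := Pr_patterns h0 h1 ((univ : Finset (Finset (V × V))).filter
      (fun E => E.Nonempty ∧ d0 / 64 * E.card ≤ (O1 E).card)) (fun E => O1 E)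
      (by intro E _ t ht; simp only [O1, mem_filter] at ht; exact ht.2.1)
  have e3 : ∑ E ∈ (univ : Finset (Finset (V × V))).filter
      (fun E => E.Nonempty ∧ d0 / 64 * E.card ≤ (O1 E).card),
        Real.exp (-(p * ((O1 E).card : ℝ) / 27))
      ≤ ∑ E ∈ (univ : Finset (Finset (V × V))).filter (fun E => E.Nonempty),
        (Real.exp (-(p * d0 / 1728))) ^ E.card := by
    calc _ ≤ ∑ E ∈ (univ : Finset (Finset (V × V))).filter
              (fun E => E.Nonempty ∧ d0 / 64 * E.card ≤ (O1 E).card),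
        (Real.exp (-(p * d0 / 1728))) ^ E.card := by
          apply Finset.sum_le_sum
          intro E hE
          simp only [mem_filter, mem_univ, true_and] at hE
          rw [← Real.exp_nat_mul]
          apply Real.exp_le_exp.mpr
          have := mul_le_mul_of_nonneg_left hE.2 h0
          nlinarith
      _ ≤ _ := by
          apply Finset.sum_le_sum_of_subset_of_nonneg
          · intro E hE
            simp only [mem_filter, mem_univ, true_and] at hE ⊢
            exact hE.1
          · intro E _ _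
            positivity
  have hcard : (Fintype.card (V × V) : ℝ) = (Fintype.card V : ℝ) ^ 2 := by
    rw [Fintype.card_prod]; push_cast; ring
  have e4 := sum_nonempty_pow (α := V × V) (Real.exp (-(p * d0 / 1728))) (Real.exp_pos _).le
    (by rw [hcard]; exact hd)
  rw [hcard] at e4
  exact e1.trans (e2.trans (e3.trans e4))

/-! ### Bad2 -/

lemma prob_bad2 {p : ℝ} (h0 : 0 ≤ p) (h1 : p ≤ 1) (d0 s0 : ℝ) (hs0 : 0 ≤ s0) :
    Pr p (Bad2 (V := V) d0 s0) ≤ ∑ D ∈ (univ : Finset (Finset V)).filter (fun D => d0 ≤ D.card),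
      2 ^ (D.card ^ 2) * Real.exp (-(s0 * (p * (D.card : ℝ) ^ 2 / 864))) *
      (1 + (D.card : ℝ) ^ D.card * Real.exp (-(p * (D.card : ℝ) ^ 2 / 864))) ^ Fintype.card V := by
  have e1 : Pr p (Bad2 (V := V) d0 s0) ≤ Pr p (fun F =>
      ∃ D ∈ (univ : Finset (Finset V)).filter (fun D => d0 ≤ D.card),
      ∃ i ∈ (univ : Finset (Finset (D × D) × (V → Option (D → D)))).filter (fun i =>
        s0 ≤ (dom i.2).card ∧ ((dom i.2).card : ℝ) * (D.card : ℝ) ^ 2 / 16 ≤ (O2 D i.1 i.2).card),
        ∀ t ∈ O2 D i.1 i.2, tri t ∉ F) := by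
    apply Pr_mono h0 h1
    rintro F _ ⟨D, hD, N, K, h2, h3, h4⟩
    exact ⟨D, by simp [hD], (N, K), by simp [h2, h3], h4⟩
  have e2 := Pr_union (V := V) h0 h1 ((univ : Finset (Finset V)).filter (fun D => d0 ≤ D.card))
    (fun D F => ∃ i ∈ (univ : Finset (Finset (D × D) × (V → Option (D → D)))).filter (fun i =>
        s0 ≤ (dom i.2).card ∧ ((dom i.2).card : ℝ) * (D.card : ℝ) ^ 2 / 16 ≤ (O2 D i.1 i.2).card),
        ∀ t ∈ O2 D i.1 i.2, tri t ∉ F)
  refine e1.trans (e2.trans (Finset.sum_le_sum ?_))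
  intro D _
  have e3 := Pr_patterns h0 h1 ((univ : Finset (Finset (D × D) × (V → Option (D → D)))).filter
      (fun i => s0 ≤ (dom i.2).card ∧
        ((dom i.2).card : ℝ) * (D.card : ℝ) ^ 2 / 16 ≤ (O2 D i.1 i.2).card))
      (fun i => O2 D i.1 i.2)
      (by intro i _ t ht; simp only [O2, mem_filter] at ht; exact ht.2.1)
  refine e3.trans ?_
  set a : ℝ := p * (D.card : ℝ) ^ 2 / 864 with ha
  have ha0 : 0 ≤ a := by positivity
  calc _ ≤ ∑ i ∈ (univ : Finset (Finset (D × D) × (V → Option (D → D)))).filter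
            (fun i => s0 ≤ (dom i.2).card ∧
        ((dom i.2).card : ℝ) * (D.card : ℝ) ^ 2 / 16 ≤ (O2 D i.1 i.2).card),
        Real.exp (-(s0 * a)) * (Real.exp (-a)) ^ (dom i.2).card := by
        apply Finset.sum_le_sum
        intro i hi
        simp only [mem_filter, mem_univ, true_and] at hi
        rw [← Real.exp_nat_mul, ← Real.exp_add]
        apply Real.exp_le_exp.mpr
        have g1 := mul_le_mul_of_nonneg_left hi.2 h0
        have g2 := mul_le_mul_of_nonneg_right hi.1 ha0
        have g3 : ((dom i.2).card : ℝ) * a = p * (((dom i.2).card : ℝ) * (D.card : ℝ) ^ 2 / 16) / 54 := by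
          rw [ha]; ring
        nlinarith
    _ ≤ ∑ i : Finset (D × D) × (V → Option (D → D)),
        Real.exp (-(s0 * a)) * (Real.exp (-a)) ^ (dom i.2).card := by
        apply Finset.sum_le_sum_of_subset_of_nonneg (Finset.subset_univ _)
        intro i _ _
        positivity
    _ = 2 ^ (D.card ^ 2) * Real.exp (-(s0 * a)) *
        (1 + (D.card : ℝ) ^ D.card * Real.exp (-a)) ^ Fintype.card V := by
        rw [Fintype.sum_prod_type]
        simp only
        rw [Finset.sum_const, ← Finset.mul_sum, sum_opt]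
        simp only [card_univ, Fintype.card_finset, Fintype.card_prod, Fintype.card_coe,
          Fintype.card_fun, nsmul_eq_mul]
        push_cast
        ring

/-! ### Bad3 -/

lemma prob_bad3 {p : ℝ} (h0 : 0 ≤ p) (h1 : p ≤ 1) (d0 k0 : ℝ) (hk0 : 0 ≤ k0) :
    Pr p (Bad3 (V := V) d0 k0) ≤ ∑ D ∈ (univ : Finset (Finset V)).filter (fun D => d0 ≤ D.card),
      2 ^ (D.card * Fintype.card V) * Real.exp (-(k0 * (p * (D.card : ℝ) / 108))) *
      (1 + Real.exp (-(p * (D.card : ℝ) / 108))) ^ (Fintype.card V ^ 2) := by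
  have e1 : Pr p (Bad3 (V := V) d0 k0) ≤ Pr p (fun F =>
      ∃ D ∈ (univ : Finset (Finset V)).filter (fun D => d0 ≤ D.card),
      ∃ i ∈ (univ : Finset ((V → Finset D) × Finset (V × V))).filter (fun i =>
        k0 ≤ i.2.card ∧ (i.2.card : ℝ) * (D.card : ℝ) / 2 ≤ (O3 D i.1 i.2).card),
        ∀ t ∈ O3 D i.1 i.2, tri t ∉ F) := by
    apply Pr_mono h0 h1
    rintro F _ ⟨D, hD, Z, B, h2, h3, h4⟩
    exact ⟨D, by simp [hD], (Z, B), by simp [h2, h3], h4⟩
  have e2 := Pr_union (V := V) h0 h1 ((univ : Finset (Finset V)).filter (fun D => d0 ≤ D.card))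
    (fun D F => ∃ i ∈ (univ : Finset ((V → Finset D) × Finset (V × V))).filter (fun i =>
        k0 ≤ i.2.card ∧ (i.2.card : ℝ) * (D.card : ℝ) / 2 ≤ (O3 D i.1 i.2).card),
        ∀ t ∈ O3 D i.1 i.2, tri t ∉ F)
  refine e1.trans (e2.trans (Finset.sum_le_sum ?_))
  intro D _
  have e3 := Pr_patterns h0 h1 ((univ : Finset ((V → Finset D) × Finset (V × V))).filter
      (fun i => k0 ≤ i.2.card ∧ (i.2.card : ℝ) * (D.card : ℝ) / 2 ≤ (O3 D i.1 i.2).card))
      (fun i => O3 D i.1 i.2)
      (by intro i _ t ht; simp only [O3, mem_filter] at ht; exact ht.2.1)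
  refine e3.trans ?_
  set a : ℝ := p * (D.card : ℝ) / 108 with ha
  have ha0 : 0 ≤ a := by positivity
  calc _ ≤ ∑ i ∈ (univ : Finset ((V → Finset D) × Finset (V × V))).filter
            (fun i => k0 ≤ i.2.card ∧ (i.2.card : ℝ) * (D.card : ℝ) / 2 ≤ (O3 D i.1 i.2).card),
        Real.exp (-(k0 * a)) * (Real.exp (-a)) ^ i.2.card := by
        apply Finset.sum_le_sum
        intro i hi
        simp only [mem_filter, mem_univ, true_and] at hi
        rw [← Real.exp_nat_mul, ← Real.exp_add]
        apply Real.exp_le_exp.mpr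
        have g1 := mul_le_mul_of_nonneg_left hi.2 h0
        have g2 := mul_le_mul_of_nonneg_right hi.1 ha0
        have g3 : (i.2.card : ℝ) * a = p * ((i.2.card : ℝ) * (D.card : ℝ) / 2) / 54 := by
          rw [ha]; ring
        nlinarith
    _ ≤ ∑ i : (V → Finset D) × Finset (V × V),
        Real.exp (-(k0 * a)) * (Real.exp (-a)) ^ i.2.card := by
        apply Finset.sum_le_sum_of_subset_of_nonneg (Finset.subset_univ _)
        intro i _ _
        positivity
    _ = 2 ^ (D.card * Fintype.card V) * Real.exp (-(k0 * a)) *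
        (1 + Real.exp (-a)) ^ (Fintype.card V ^ 2) := by
        rw [Fintype.sum_prod_type]
        simp only
        rw [Finset.sum_const, ← Finset.mul_sum, sum_finset_pow]
        simp only [card_univ, Fintype.card_finset, Fintype.card_prod, Fintype.card_coe,
          Fintype.card_fun, nsmul_eq_mul]
        push_cast
        rw [← pow_mul, sq (Fintype.card V)]
        ring

/-! ### Bad4 -/

lemma prob_bad4 {p : ℝ} (h0 : 0 ≤ p) (h1 : p ≤ 1) :
    Pr p (Bad4 (V := V)) ≤
      (1 + Real.exp (-(p * (Fintype.card V : ℝ) / 108))) ^ (Fintype.card V ^ 2) *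
      (1 + (Fintype.card V : ℝ) ^ Fintype.card V *
        Real.exp (-(p * (Fintype.card V : ℝ) ^ 2 / 1728))) ^ Fintype.card V - 1 := by
  have e1 : Pr p (Bad4 (V := V)) ≤ Pr p (fun F =>
      ∃ i ∈ (univ : Finset ((V → Option (V → V)) × Finset (V × V))).filter (fun i =>
        ((dom i.1).Nonempty ∨ i.2.Nonempty) ∧ (i.2.card : ℝ) * (Fintype.card V) / 4
          + ((dom i.1).card : ℝ) * (Fintype.card V : ℝ) ^ 2 / 64 ≤ (O4 i.1 i.2).card),
        ∀ t ∈ O4 i.1 i.2, tri t ∉ F) := by
    apply Pr_mono h0 h1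
    rintro F _ ⟨K, Q, h2, h3, h4⟩
    refine ⟨(K, Q), ?_, h4⟩
    simp only [mem_filter, mem_univ, true_and]
    exact ⟨h2, h3⟩
  have e3 := Pr_patterns h0 h1 ((univ : Finset ((V → Option (V → V)) × Finset (V × V))).filter
      (fun i => ((dom i.1).Nonempty ∨ i.2.Nonempty) ∧ (i.2.card : ℝ) * (Fintype.card V) / 4
          + ((dom i.1).card : ℝ) * (Fintype.card V : ℝ) ^ 2 / 64 ≤ (O4 i.1 i.2).card))
      (fun i => O4 i.1 i.2)
      (by intro i _ t ht; simp only [O4, mem_filter] at ht; exact ht.2.1)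
  refine e1.trans (e3.trans ?_)
  set a : ℝ := p * (Fintype.card V : ℝ) / 108 with ha
  set b : ℝ := p * (Fintype.card V : ℝ) ^ 2 / 1728 with hb
  have hall : ∑ i : (V → Option (V → V)) × Finset (V × V),
        (Real.exp (-b)) ^ (dom i.1).card * (Real.exp (-a)) ^ i.2.card
      = (1 + Real.exp (-a)) ^ (Fintype.card V ^ 2) *
      (1 + (Fintype.card V : ℝ) ^ Fintype.card V * Real.exp (-b)) ^ Fintype.card V := by
    rw [Fintype.sum_prod_type]
    simp only
    simp_rw [← Finset.mul_sum, sum_finset_pow]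
    rw [← Finset.sum_mul, sum_opt]
    simp only [Fintype.card_prod, Fintype.card_fun]
    push_cast
    rw [sq (Fintype.card V)]
    ring
  rw [← hall]
  have hsplit : ∑ i : (V → Option (V → V)) × Finset (V × V),
        (Real.exp (-b)) ^ (dom i.1).card * (Real.exp (-a)) ^ i.2.card
      = ∑ i ∈ (univ : Finset ((V → Option (V → V)) × Finset (V × V))).filter (fun i =>
        ((dom i.1).Nonempty ∨ i.2.Nonempty)),
        (Real.exp (-b)) ^ (dom i.1).card * (Real.exp (-a)) ^ i.2.card + 1 := by
    rw [← Finset.sum_filter_add_sum_filter_not univ (fun i : (V → Option (V → V)) × Finset (V × V) =>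
        ((dom i.1).Nonempty ∨ i.2.Nonempty))]
    congr 1
    have : (univ : Finset ((V → Option (V → V)) × Finset (V × V))).filter (fun i =>
        ¬ ((dom i.1).Nonempty ∨ i.2.Nonempty)) = {((fun _ => none), ∅)} := by
      ext ⟨K, Q⟩
      simp only [mem_filter, mem_univ, true_and, mem_singleton, Prod.mk.injEq, not_or,
        Finset.not_nonempty_iff_eq_empty]
      constructor
      · rintro ⟨h2, h3⟩
        refine ⟨?_, h3⟩
        funext w
        by_contra hw
        have : w ∈ dom K := by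
          simp only [dom, mem_filter, mem_univ, true_and]
          exact Option.isSome_iff_ne_none.mpr hw
        rw [h2] at this
        simp at this
      · rintro ⟨rfl, rfl⟩
        refine ⟨?_, rfl⟩
        ext w; simp [dom]
    rw [this]
    simp [dom]
  rw [hsplit, add_sub_cancel_right]
  calc _ ≤ ∑ i ∈ (univ : Finset ((V → Option (V → V)) × Finset (V × V))).filter
            (fun i => ((dom i.1).Nonempty ∨ i.2.Nonempty) ∧ (i.2.card : ℝ) * (Fintype.card V) / 4
          + ((dom i.1).card : ℝ) * (Fintype.card V : ℝ) ^ 2 / 64 ≤ (O4 i.1 i.2).card),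
        (Real.exp (-b)) ^ (dom i.1).card * (Real.exp (-a)) ^ i.2.card := by
        apply Finset.sum_le_sum
        intro i hi
        simp only [mem_filter, mem_univ, true_and] at hi
        rw [← Real.exp_nat_mul, ← Real.exp_nat_mul, ← Real.exp_add]
        apply Real.exp_le_exp.mpr
        have g1 := mul_le_mul_of_nonneg_left hi.2 h0
        rw [ha, hb]
        nlinarith
    _ ≤ _ := by
        apply Finset.sum_le_sum_of_subset_of_nonneg
        · intro i hi
          simp only [mem_filter, mem_univ, true_and] at hi ⊢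
          exact hi.1
        · intro i _ _
          positivity

end

end Pool.Agent.helper182_gap
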